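import Pool.Agent.Lib.MP_c907c5_lc.SN.ApxL

/-! Weak approximation for finitely many pairwise independent non-trivial valuation rings. -/

set_option autoImplicit false

namespace Pool.Agent.Lib.MP_c907c5_lc.SN

private theorem exists_small {E : Type} [Field E] (v : ValuationSubring E) {b : E} (hb : b ≠ 0) :
    ∃ c : E, c ≠ 0 ∧ v.valuation c ≤ 1 ∧ v.valuation c ≤ v.valuation b := by
  rcases le_total (v.valuation b) 1 with h | h
  · exact ⟨b, hb, h, le_rfl⟩
  · exact ⟨1, one_ne_zero, (map_one _).le, by rw [map_one]; exact h⟩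

private theorem exists_big {E : Type} [Field E] (v : ValuationSubring E) {b : E} (hb : b ≠ 0) :
    ∃ c : E, c ≠ 0 ∧ 1 ≤ v.valuation c ∧ (v.valuation b)⁻¹ ≤ v.valuation c := by
  rcases le_total (v.valuation b)⁻¹ 1 with h | h
  · exact ⟨1, one_ne_zero, (map_one _).ge, by rw [map_one]; exact h⟩
  · exact ⟨b⁻¹, inv_ne_zero hb, by rw [map_inv₀]; exact h, by rw [map_inv₀]⟩

private theorem exists_unit {E : Type} [Field E] {ι : Type} (v : ι → ValuationSubring E)
    (hnt : ∀ i, v i ≠ ⊤) (hind : ∀ i j, i ≠ j → ∀ x : E, ∃ a ∈ v i, ∃ b ∈ v j, x = a * b)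
    (k : ι) (s : Finset ι) (hks : k ∉ s) (b : ι → E) (hb : ∀ i, b i ≠ 0) :
    ∃ e : E, (v k).valuation (e - 1) < (v k).valuation (b k) ∧
      ∀ j ∈ s, (v j).valuation e < (v j).valuation (b j) := by
  classical
  choose c hc0 hc1 hcb using fun j => exists_small (v j) (hb j)
  obtain ⟨C, hC0, hC1, hCb⟩ := exists_big (v k) (hb k)
  obtain ⟨y, hy, hys⟩ := large_val v hnt hind k s hks (Function.update c k C) (fun j => by
    by_cases h : j = k
    · subst h
      rw [Function.update_self]
      exact hC0
    · rw [Function.update_of_ne h]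
      exact hc0 j)
  rw [Function.update_self] at hy
  have hy1 : (v k).valuation 1 < (v k).valuation y := by
    rw [map_one]
    exact hC1.trans_lt hy
  have hyk : (v k).valuation (1 + y) = (v k).valuation y :=
    Valuation.map_add_eq_of_lt_right _ hy1
  have hyp : 0 < (v k).valuation y := lt_of_le_of_lt zero_le hy
  have h0 : 1 + y ≠ 0 := by
    intro h
    rw [h, map_zero] at hyk
    exact hyp.ne hyk
  have hbp : 0 < (v k).valuation (b k) := by
    rw [zero_lt_iff]
    exact (Valuation.ne_zero_iff _).2 (hb k)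
  refine ⟨y / (1 + y), ?_, fun j hj => ?_⟩
  · have e1 : y / (1 + y) - 1 = -(1 + y)⁻¹ := by
      field_simp
      ring
    rw [e1, Valuation.map_neg, map_inv₀, hyk]
    exact (inv_lt_comm₀ hbp hyp).1 (hCb.trans_lt hy)
  · have hjk : j ≠ k := fun h => hks (h ▸ hj)
    have h1 := hys j hj
    rw [Function.update_of_ne hjk] at h1
    have h2 : (v j).valuation (1 + y) = 1 := by
      have h3 : (v j).valuation y < (v j).valuation 1 := by
        rw [map_one]
        exact h1.trans_le (hc1 j)
      rw [Valuation.map_add_eq_of_lt_left _ h3, map_one]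
    rw [map_div₀, h2, div_one]
    exact h1.trans_le (hcb j)

theorem approx_val {E : Type} [Field E] {ι : Type} (v : ι → ValuationSubring E)
    (hnt : ∀ i, v i ≠ ⊤) (hind : ∀ i j, i ≠ j → ∀ x : E, ∃ a ∈ v i, ∃ b ∈ v j, x = a * b)
    (s : Finset ι) (a b : ι → E) (hb : ∀ i, b i ≠ 0) :
    ∃ x : E, ∀ i ∈ s, (v i).valuation (x - a i) < (v i).valuation (b i) := by
  classical
  induction s using Finset.induction_on with
  | empty => exact ⟨0, fun i hi => absurd hi (Finset.notMem_empty i)⟩
  | insert k s hks ih =>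
    obtain ⟨x₀, hx₀⟩ := ih
    by_cases hak : a k = x₀
    · refine ⟨x₀, fun i hi => ?_⟩
      rcases Finset.mem_insert.1 hi with h | h
      · subst h
        rw [hak, sub_self, map_zero, zero_lt_iff]
        exact (Valuation.ne_zero_iff _).2 (hb i)
      · exact hx₀ i h
    · have hd : a k - x₀ ≠ 0 := sub_ne_zero.2 hak
      obtain ⟨e, he, hes⟩ := exists_unit v hnt hind k s hks (fun j => b j / (a k - x₀))
        (fun j => div_ne_zero (hb j) hd)
      have key : ∀ (j : ι) (z : E), (v j).valuation z < (v j).valuation (b j / (a k - x₀)) →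
          (v j).valuation ((a k - x₀) * z) < (v j).valuation (b j) := by
        intro j z hz
        have hdp : 0 < (v j).valuation (a k - x₀) := by
          rw [zero_lt_iff]
          exact (Valuation.ne_zero_iff _).2 hd
        have h1 := mul_lt_mul_of_pos_left hz hdp
        rw [← map_mul, ← map_mul, mul_div_cancel₀ _ hd] at h1
        exact h1
      refine ⟨x₀ + (a k - x₀) * e, fun i hi => ?_⟩
      rcases Finset.mem_insert.1 hi with h | h
      · subst h
        have e1 : x₀ + (a i - x₀) * e - a i = (a i - x₀) * (e - 1) := by ring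
        rw [e1]
        exact key i _ he
      · have e1 : x₀ + (a k - x₀) * e - a i = (x₀ - a i) + (a k - x₀) * e := by ring
        rw [e1]
        exact Valuation.map_add_lt _ (hx₀ i h) (key i _ (hes i h))

end Pool.Agent.Lib.MP_c907c5_lc.SN
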