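import Mathlib

/-! An element large at one place and small at finitely many others, for pairwise independent
non-trivial valuation rings. -/

set_option autoImplicit false

namespace Pool.Agent.Lib.MP_c907c5_lc.SN

private theorem exists_one_lt {E : Type} [Field E] (v : ValuationSubring E) (hnt : v ≠ ⊤) :
    ∃ t : E, 1 < v.valuation t := by
  by_contra hcon
  push Not at hcon
  apply hnt
  rw [eq_top_iff]
  intro x _
  exact (v.valuation_le_one_iff x).1 (hcon x)

private theorem two_places {E : Type} [Field E] (v w : ValuationSubring E) (hv : v ≠ ⊤) (hw : w ≠ ⊤)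
    (h : ∀ x : E, ∃ a ∈ w, ∃ b ∈ v, x = a * b) (b c : E) (hb : b ≠ 0) (hc : c ≠ 0) :
    ∃ y : E, v.valuation b < v.valuation y ∧ w.valuation y < w.valuation c := by
  obtain ⟨t, ht⟩ := exists_one_lt v hv
  obtain ⟨u, hu⟩ := exists_one_lt w hw
  have hu0 : u ≠ 0 := by
    rintro rfl
    rw [map_zero] at hu
    exact absurd hu (not_lt.2 zero_le_one)
  obtain ⟨x, hx, y, hy, hxy⟩ := h (b * t / (c / u))
  have hcu : c / u ≠ 0 := div_ne_zero hc hu0
  refine ⟨c / u * x, ?_, ?_⟩
  · have h1 : b * t = c / u * x * y := by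
      rw [mul_assoc, ← hxy, mul_div_cancel₀ _ hcu]
    have h2 : v.valuation (b * t) ≤ v.valuation (c / u * x) := by
      rw [h1, map_mul v.valuation (c / u * x) y]
      exact mul_le_of_le_one_right' ((v.valuation_le_one_iff y).2 hy)
    refine lt_of_lt_of_le ?_ h2
    rw [map_mul]
    have h3 : 0 < v.valuation b := zero_lt_iff.2 ((v.valuation.ne_zero_iff).2 hb)
    exact lt_mul_of_one_lt_right h3 ht
  · have h1 : w.valuation (c / u * x) ≤ w.valuation (c / u) := by
      rw [map_mul w.valuation (c / u) x]
      exact mul_le_of_le_one_right' ((w.valuation_le_one_iff x).2 hx)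
    refine lt_of_le_of_lt h1 ?_
    have h2 : w.valuation c = w.valuation (c / u) * w.valuation u := by
      rw [← map_mul, div_mul_cancel₀ _ hu0]
    rw [h2]
    have h3 : 0 < w.valuation (c / u) := zero_lt_iff.2 ((w.valuation.ne_zero_iff).2 hcu)
    exact lt_mul_of_one_lt_right h3 hu

theorem large_val {E : Type} [Field E] {ι : Type} (v : ι → ValuationSubring E)
    (hnt : ∀ i, v i ≠ ⊤) (hind : ∀ i j, i ≠ j → ∀ x : E, ∃ a ∈ v i, ∃ b ∈ v j, x = a * b)
    (i : ι) (s : Finset ι) (his : i ∉ s) (b : ι → E) (hb : ∀ j, b j ≠ 0) :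
    ∃ y : E, (v i).valuation (b i) < (v i).valuation y ∧
      ∀ j ∈ s, (v j).valuation y < (v j).valuation (b j) := by
  classical
  induction s using Finset.induction_on generalizing b with
  | empty =>
    obtain ⟨t, ht⟩ := exists_one_lt (v i) (hnt i)
    refine ⟨b i * t, ?_, fun j hj => absurd hj (Finset.notMem_empty j)⟩
    rw [map_mul]
    exact lt_mul_of_one_lt_right (zero_lt_iff.2 (((v i).valuation.ne_zero_iff).2 (hb i))) ht
  | insert k s hks ih =>
    have hik : i ≠ k := fun h => his (h ▸ Finset.mem_insert_self k s)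
    have his' : i ∉ s := fun h => his (Finset.mem_insert_of_mem h)
    obtain ⟨y₂, h1, h2⟩ := two_places (v i) (v k) (hnt i) (hnt k) (hind k i hik.symm) (b i) (b k) (hb i) (hb k)
    have hy₂ : y₂ ≠ 0 := by
      rintro rfl
      rw [map_zero] at h1
      exact absurd h1 (not_lt.2 zero_le)
    obtain ⟨y₁, h3, h4⟩ := ih his' (fun j => if j = i then 1 else if (v j).valuation (b j / y₂) ≤ 1 then b j / y₂ else 1)
      (fun j => by
        change (if j = i then (1 : E) else if (v j).valuation (b j / y₂) ≤ 1 then b j / y₂ else 1) ≠ 0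
        split_ifs
        · exact one_ne_zero
        · exact div_ne_zero (hb j) hy₂
        · exact one_ne_zero)
    have h3' : 1 < (v i).valuation y₁ := by
      have h5 := h3
      simp only [if_true] at h5
      rwa [map_one] at h5
    have h4' : ∀ j ∈ s, (v j).valuation y₁ < 1 ∧ (v j).valuation y₁ < (v j).valuation (b j / y₂) := by
      intro j hj
      have h5 := h4 j hj
      have hji : j ≠ i := fun h => his' (h ▸ hj)
      simp only [if_neg hji] at h5
      by_cases h6 : (v j).valuation (b j / y₂) ≤ 1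
      · rw [if_pos h6] at h5
        exact ⟨lt_of_lt_of_le h5 h6, h5⟩
      · rw [if_neg h6, map_one] at h5
        exact ⟨h5, h5.trans (not_le.1 h6)⟩
    -- the corrected element
    obtain ⟨z, hz1, hz2, hz3⟩ : ∃ z : E, 1 ≤ (v i).valuation z ∧ (v k).valuation z ≤ 1 ∧
        ∀ j ∈ s, (v j).valuation z = (v j).valuation y₁ := by
      by_cases h5 : (v k).valuation y₁ ≤ 1
      · exact ⟨y₁, h3'.le, h5, fun j _ => rfl⟩
      · rw [not_le] at h5
        have h6 : (v k).valuation 1 < (v k).valuation y₁ := by rw [map_one]; exact h5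
        have h7 : (v i).valuation 1 < (v i).valuation y₁ := by rw [map_one]; exact h3'
        have hk : (v k).valuation (1 + y₁) = (v k).valuation y₁ := (v k).valuation.map_add_eq_of_lt_right h6
        have hi : (v i).valuation (1 + y₁) = (v i).valuation y₁ := (v i).valuation.map_add_eq_of_lt_right h7
        refine ⟨y₁ / (1 + y₁), ?_, ?_, fun j hj => ?_⟩
        · rw [map_div₀, hi, div_self (zero_lt_one.trans h3').ne']
        · rw [map_div₀, hk, div_self (zero_lt_one.trans h5).ne']
        · rw [map_div₀, (v j).valuation.map_one_add_of_lt (h4' j hj).1, div_one]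
    refine ⟨z * y₂, ?_, fun j hj => ?_⟩
    · rw [map_mul]
      exact lt_of_lt_of_le h1 (le_mul_of_one_le_left' hz1)
    · rw [map_mul]
      rcases Finset.mem_insert.1 hj with rfl | hj
      · exact lt_of_le_of_lt (mul_le_of_le_one_left' hz2) h2
      · rw [hz3 j hj]
        have h5 : (v j).valuation (b j) = (v j).valuation (b j / y₂) * (v j).valuation y₂ := by
          rw [← map_mul, div_mul_cancel₀ _ hy₂]
        rw [h5]
        exact mul_lt_mul_of_pos_right (h4' j hj).2 (zero_lt_iff.2 (((v j).valuation.ne_zero_iff).2 hy₂))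

end Pool.Agent.Lib.MP_c907c5_lc.SN
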