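import Mathlib

/-! Monochromatic boxes. -/

set_option autoImplicit false

namespace Pool.Agent.Lib.MP_c907c5_lc.SN

theorem box (n : ℕ) (κ : Type) [Finite κ] (W : ℕ) :
    ∃ N : ℕ, ∀ f : (Fin n → Fin N) → κ, ∃ b : Fin n → Fin W → Fin N,
      (∀ i, Function.Injective (b i)) ∧ ∃ c : κ, ∀ η : Fin n → Fin W,
        f (fun i => b i (η i)) = c := by
  classical
  induction n with
  | zero =>
    refine ⟨0, fun f => ⟨fun i => i.elim0, fun i => i.elim0, f (fun i => i.elim0), fun η => ?_⟩⟩
    congr 1
    funext i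
    exact i.elim0
  | succ n ih =>
    obtain ⟨N, hN⟩ := ih
    have := Fintype.ofFinite κ
    obtain ⟨M, hM⟩ : ∃ M : ℕ, M = Fintype.card ((Fin n → Fin N) → κ) * W + 1 := ⟨_, rfl⟩
    refine ⟨max N M, fun f => ?_⟩
    have hNM : N ≤ max N M := le_max_left _ _
    have hMM : M ≤ max N M := le_max_right _ _
    obtain ⟨y, hy⟩ := Fintype.exists_lt_card_fiber_of_mul_lt_card (n := W)
      (fun (j : Fin M) (η : Fin n → Fin N) =>
        f (Fin.snoc (α := fun _ => Fin (max N M)) (fun i => Fin.castLE hNM (η i)) (Fin.castLE hMM j))) (by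
        rw [Fintype.card_fin, hM]
        exact Nat.lt_succ_self _)
    obtain ⟨b, hb, c, hc⟩ := hN y
    let em := (Finset.univ.filter fun x : Fin M => (fun (j : Fin M) (η : Fin n → Fin N) =>
        f (Fin.snoc (α := fun _ => Fin (max N M)) (fun i => Fin.castLE hNM (η i)) (Fin.castLE hMM j))) x = y).orderEmbOfCardLe hy.le
    have hem : ∀ w, ∀ η : Fin n → Fin N,
        f (Fin.snoc (α := fun _ => Fin (max N M)) (fun i => Fin.castLE hNM (η i)) (Fin.castLE hMM (em w))) = y η := by
      intro w η
      have h1 := Finset.orderEmbOfCardLe_mem _ hy.le w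
      exact congrFun (Finset.mem_filter.1 h1).2 η
    refine ⟨Fin.snoc (α := fun _ => Fin W → Fin (max N M)) (fun i w => Fin.castLE hNM (b i w))
      (fun w => Fin.castLE hMM (em w)), ?_, c, ?_⟩
    · intro i
      refine Fin.lastCases ?_ (fun i => ?_) i
      · rw [Fin.snoc_last]
        exact (Fin.castLE_injective hMM).comp em.injective
      · rw [Fin.snoc_castSucc]
        exact (Fin.castLE_injective hNM).comp (hb i)
    · intro η
      rw [← hc (fun i => η i.castSucc), ← hem (η (Fin.last n))]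
      congr 1
      funext i
      refine Fin.lastCases ?_ (fun i => ?_) i
      · rw [Fin.snoc_last, Fin.snoc_last]
      · rw [Fin.snoc_castSucc, Fin.snoc_castSucc]

end Pool.Agent.Lib.MP_c907c5_lc.SN
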