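import Pool.Agent.Lib.MP_c907c5_lc.SN.PatU
import Pool.Agent.Lib.MP_c907c5_lc.SN.Box
import Pool.Agent.Lib.MP_c907c5_lc.SN.Approx

/-! The pattern given by infinitely many pairwise independent valuation rings. -/

set_option autoImplicit false
open FirstOrder FirstOrder.Language FirstOrder.Ring

namespace Pool.Agent.Lib.MP_c907c5_lc.SN

/-- The differences of the elements `u t ^ (j q)`, divided by a suitable `q`-th power, are far from
all `q`-th powers. -/
private lemma diff_far {E Γ : Type} [Field E] [LinearOrderedCommGroupWithZero Γ]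
    {v : Valuation E Γ} {q : ℕ} (hq : Odd q) {u g t : E} (hg : g ≠ 0)
    (hu : ∀ z : E, v g ≤ v (u - z ^ q)) (ht1 : 1 < v t) (ht2 : v u < v g * v t) {j j' : ℕ}
    (hjj : j ≠ j') :
    ∃ r : E, r ≠ 0 ∧ 1 ≤ v r ∧ v (u * (t ^ j) ^ q - u * (t ^ j') ^ q) = v u * v r ^ q ∧
      ∀ z : E, v g ≤ v ((u * (t ^ j) ^ q - u * (t ^ j') ^ q) / r ^ q - z ^ q) := by
  have hq0 : q ≠ 0 := by
    rintro rfl
    exact absurd hq (by decide)
  have hg1 : 0 < v g := zero_lt_iff.2 ((v.ne_zero_iff).2 hg)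
  have hgu : v g ≤ v u := by
    have := hu 0
    rwa [zero_pow hq0, sub_zero] at this
  have hu1 : 0 < v u := hg1.trans_le hgu
  have ht0 : t ≠ 0 := by
    rintro rfl
    rw [map_zero] at ht1
    exact absurd ht1 (not_lt.2 zero_le_one)
  have key : ∀ a b : ℕ, b < a →
      v (u * (t ^ a) ^ q - u * (t ^ b) ^ q) = v u * v (t ^ a) ^ q ∧
      ∀ z : E, v g ≤ v ((u * (t ^ a) ^ q - u * (t ^ b) ^ q) / (t ^ a) ^ q - z ^ q) := by
    intro a b hab
    have hta : (t ^ a) ^ q ≠ 0 := pow_ne_zero _ (pow_ne_zero _ ht0)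
    have hta1 : 0 < v ((t ^ a) ^ q) := zero_lt_iff.2 ((v.ne_zero_iff).2 hta)
    -- the second term is small
    have h1 : v (u * (t ^ b) ^ q) < v g * v ((t ^ a) ^ q) := by
      have h2 : v (t ^ b) * v t ≤ v (t ^ a) := by
        rw [map_pow, map_pow, ← pow_succ]
        exact pow_le_pow_right₀ ht1.le hab
      have h3 : v t ≤ v t ^ q := le_self_pow₀ ht1.le hq0
      calc v (u * (t ^ b) ^ q) = v u * v (t ^ b) ^ q := by rw [map_mul, map_pow]
        _ < (v g * v t) * v (t ^ b) ^ q := by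
            apply mul_lt_mul_of_pos_right ht2
            have : v (t ^ b) ≠ 0 := (v.ne_zero_iff).2 (pow_ne_zero _ ht0)
            exact zero_lt_iff.2 (pow_ne_zero _ this)
        _ ≤ (v g * v t ^ q) * v (t ^ b) ^ q := by gcongr
        _ = v g * (v (t ^ b) * v t) ^ q := by
            rw [mul_pow, mul_assoc, mul_comm (v t ^ q)]
        _ ≤ v g * v (t ^ a) ^ q := by gcongr
        _ = v g * v ((t ^ a) ^ q) := by rw [map_pow v (t ^ a) q]
    have h4 : v (u * (t ^ b) ^ q) < v (u * (t ^ a) ^ q) := by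
      refine h1.trans_le ?_
      rw [map_mul]
      gcongr
    constructor
    · rw [sub_eq_add_neg, v.map_add_eq_of_lt_left (by rw [v.map_neg]; exact h4), map_mul, map_pow]
    · intro z
      by_contra hlt
      rw [not_le] at hlt
      have h5 : u - z ^ q = ((u * (t ^ a) ^ q - u * (t ^ b) ^ q) / (t ^ a) ^ q - z ^ q) +
          (u * (t ^ b) ^ q) / (t ^ a) ^ q := by
        field_simp
        ring
      have h6 : v ((u * (t ^ b) ^ q) / (t ^ a) ^ q) < v g := by
        rw [map_div₀, div_lt_iff₀ hta1]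
        exact h1
      have h7 := v.map_add_lt hlt h6
      rw [← h5] at h7
      exact absurd (hu z) (not_le.2 h7)
  rcases lt_or_gt_of_ne hjj with h | h
  · obtain ⟨h1, h2⟩ := key j' j h
    have h3 : u * (t ^ j) ^ q - u * (t ^ j') ^ q = -(u * (t ^ j') ^ q - u * (t ^ j) ^ q) := by ring
    refine ⟨t ^ j', pow_ne_zero _ ht0, ?_, ?_, fun z => ?_⟩
    · rw [map_pow]; exact one_le_pow₀ ht1.le
    · rw [h3, v.map_neg]; exact h1
    · have h4 := h2 (-z)
      rw [hq.neg_pow] at h4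
      have h5 : (u * (t ^ j) ^ q - u * (t ^ j') ^ q) / (t ^ j') ^ q - z ^ q =
          -((u * (t ^ j') ^ q - u * (t ^ j) ^ q) / (t ^ j') ^ q - -z ^ q) := by
        rw [h3, neg_div]; ring
      rw [h5, v.map_neg]
      exact h4
  · obtain ⟨h1, h2⟩ := key j j' h
    refine ⟨t ^ j, pow_ne_zero _ ht0, ?_, h1, h2⟩
    rw [map_pow]; exact one_le_pow₀ ht1.le

/-- If `x = a + s ^ q + ε` with `s` and `ε` small, then `(x - b) / (x - a)` is not a `q`-th power. -/
private lemma quot_not {E Γ : Type} [Field E] [LinearOrderedCommGroupWithZero Γ]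
    {v : Valuation E Γ} {q : ℕ} (hq0 : q ≠ 0) {u g s r d δ : E} (hg : g ≠ 0) (hu0 : u ≠ 0)
    (hgu : v g ≤ v u) (hr0 : r ≠ 0) (hs0 : s ≠ 0) (hs : v (s ^ q) < v g) (hr : 1 ≤ v r)
    (hd : v d = v u * v r ^ q) (hfar : ∀ z : E, v g ≤ v (d / r ^ q - z ^ q))
    (hδ : v (δ - s ^ q) < v (s ^ q * g / u)) (y : E) (hy : d + δ = δ * y ^ q) : False := by
  have hpos : ∀ {x : E}, x ≠ 0 → 0 < v x := fun hx => zero_lt_iff.2 ((v.ne_zero_iff).2 hx)
  have hu1 := hpos hu0
  have hg1 := hpos hg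
  have hrq : r ^ q ≠ 0 := pow_ne_zero _ hr0
  have hrq1 := hpos hrq
  have hsq : s ^ q ≠ 0 := pow_ne_zero _ hs0
  have hsq1 := hpos hsq
  have hrq2 : 1 ≤ v (r ^ q) := by rw [map_pow]; exact one_le_pow₀ hr
  have h1 : v (s ^ q * g / u) ≤ v (s ^ q) := by
    rw [map_div₀, map_mul, div_le_iff₀ hu1]
    gcongr
  have h2 : v δ = v (s ^ q) := by
    have h3 : δ = s ^ q + (δ - s ^ q) := by ring
    rw [h3, v.map_add_eq_of_lt_left (hδ.trans_le h1)]
  have h3 : v δ < v d := by
    rw [h2, hd]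
    refine hs.trans_le (hgu.trans ?_)
    rw [← map_pow]
    exact le_mul_of_one_le_right' hrq2
  have h4 : v (δ * y ^ q) = v d := by
    rw [← hy, v.map_add_eq_of_lt_left h3]
  have h5 : d / r ^ q - (s * y / r) ^ q = (δ - s ^ q) * y ^ q / r ^ q - δ / r ^ q := by
    have h6 : d = δ * y ^ q - δ := by rw [← hy]; ring
    rw [h6, div_pow, mul_pow]
    ring
  have h6 : v ((δ - s ^ q) * y ^ q / r ^ q) < v g := by
    have h7 : v (y ^ q) * v (s ^ q) = v u * v (r ^ q) := by
      rw [← h2, mul_comm, ← map_mul, h4, hd, map_pow]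
    have hy0 : y ^ q ≠ 0 := by
      intro h
      rw [h, map_zero, zero_mul] at h7
      exact (mul_pos hu1 hrq1).ne h7
    have hy1 := hpos hy0
    rw [map_div₀, div_lt_iff₀ hrq1, map_mul]
    calc v (δ - s ^ q) * v (y ^ q) < v (s ^ q * g / u) * v (y ^ q) :=
          mul_lt_mul_of_pos_right hδ hy1
      _ = (v (y ^ q) * v (s ^ q)) * v g / v u := by
          rw [map_div₀, map_mul, div_mul_eq_mul_div]
          congr 1
          rw [mul_comm (v (s ^ q) * v g), mul_assoc]
      _ = v g * v (r ^ q) := by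
          rw [h7]
          field_simp
  have h8 : v (δ / r ^ q) < v g := by
    rw [map_div₀, div_lt_iff₀ hrq1, h2]
    exact hs.trans_le (le_mul_of_one_le_right' hrq2)
  have h9 := v.map_sub_lt h6 h8
  rw [← h5] at h9
  exact absurd (hfar _) (not_le.2 h9)

theorem arith_val (K : Type) [Field K] [CompatibleRing K] [Language.order.Structure K]
    (hK : StronglyNIP K) (M : Type) [Field M] [Algebra K M] [FiniteDimensional K M]
    (E : Subfield M) (q : ℕ → ℕ) (hE : ∀ (i : ℕ) (x : M), x ^ q i ∈ E → x ∈ E)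
    (hq : ∀ i, Odd (q i)) (R : ℕ → Finset M)
    (hR : ∀ i, ∀ x : M, x ≠ 0 → ∃ r ∈ R i, ∃ z : M, x = r * z ^ q i)
    (O : ℕ → ValuationSubring E) (hnt : ∀ i, O i ≠ ⊤)
    (hne : ∀ i j, i ≠ j → ∀ x : E, ∃ a ∈ O i, ∃ b ∈ O j, x = a * b)
    (u g : ℕ → E) (hg : ∀ i, g i ≠ 0)
    (hu : ∀ i, ∀ z : E, (O i).valuation (g i) ≤ (O i).valuation (u i - z ^ q i)) :
    False := by
  classical
  let v : (i : ℕ) → Valuation E (O i).ValueGroup := fun i => (O i).valuation
  have vpos : ∀ (i : ℕ) {x : E}, x ≠ 0 → 0 < v i x := fun i x hx =>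
    zero_lt_iff.2 (((v i).ne_zero_iff).2 hx)
  have hq0 : ∀ i, q i ≠ 0 := fun i h => by
    have := hq i
    rw [h] at this
    exact absurd this (by decide)
  have hgu : ∀ i, v i (g i) ≤ v i (u i) := by
    intro i
    have := hu i 0
    rwa [zero_pow (hq0 i), sub_zero] at this
  have hu0 : ∀ i, u i ≠ 0 := by
    intro i h
    have h1 := hgu i
    rw [h, map_zero] at h1
    exact absurd h1 (not_le.2 (vpos i (hg i)))
  -- large and small elements
  have ht0 : ∀ i, ∃ t : E, 1 < v i t := by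
    intro i
    by_contra hcon
    push Not at hcon
    apply hnt i
    rw [eq_top_iff]
    intro x _
    exact ((O i).valuation_le_one_iff x).1 (hcon x)
  choose t0 ht0 using ht0
  have ht00 : ∀ i, t0 i ≠ 0 := by
    intro i h
    have := ht0 i
    rw [h, map_zero] at this
    exact absurd this (not_lt.2 zero_le_one)
  have ht : ∀ i, ∃ t : E, 1 < v i t ∧ v i (u i) < v i (g i) * v i t := by
    intro i
    have h1 : v i (g i) * v i (u i / g i * t0 i) = v i (u i) * v i (t0 i) := by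
      rw [← map_mul, ← map_mul]
      congr 1
      field_simp [hg i]
    refine ⟨u i / g i * t0 i, ?_, ?_⟩
    · rw [map_mul]
      have h2 : 1 ≤ v i (u i / g i) := by
        rw [map_div₀, le_div_iff₀ (vpos i (hg i)), one_mul]
        exact hgu i
      exact lt_of_lt_of_le (ht0 i) (le_mul_of_one_le_left' h2)
    · rw [h1]
      exact lt_mul_of_one_lt_right (vpos i (hu0 i)) (ht0 i)
  choose t ht1 ht2 using ht
  have hs : ∀ i, ∃ s : E, s ≠ 0 ∧ v i (s ^ q i) < v i (g i) := by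
    intro i
    have hti : v i (t0 i)⁻¹ < 1 := by
      rw [map_inv₀]
      exact inv_lt_one_of_one_lt₀ (ht0 i)
    rcases le_or_gt 1 (v i (g i)) with h | h
    · refine ⟨(t0 i)⁻¹, inv_ne_zero (ht00 i), ?_⟩
      rw [map_pow]
      exact (pow_lt_one₀ zero_le hti (hq0 i)).trans_le h
    · refine ⟨g i * (t0 i)⁻¹, mul_ne_zero (hg i) (inv_ne_zero (ht00 i)), ?_⟩
      have h1 : v i (g i * (t0 i)⁻¹) < v i (g i) := by
        rw [map_mul]
        exact mul_lt_of_lt_one_right (vpos i (hg i)) hti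
      rw [map_pow]
      refine lt_of_le_of_lt ?_ h1
      exact pow_le_of_le_one zero_le (h1.le.trans h.le) (hq0 i)
  choose s hs0 hs using hs
  let a : ℕ → ℕ → E := fun i j => u i * ((t i) ^ j) ^ q i
  refine pattern_add K hK M q fun n W => ?_
  obtain ⟨N, hN⟩ := box n ((i : Fin n) → {r : M // r ∈ R i}) W
  -- the points
  have hx : ∀ η : Fin n → Fin N, ∃ x : E, ∀ i : Fin n,
      v i (x - (a i (η i) + s i ^ q i)) < v i (s i ^ q i * g i / u i) := by
    intro η
    obtain ⟨x, hx⟩ := approx_val O hnt hne (Finset.range n)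
      (fun i => if h : i < n then a i (η ⟨i, h⟩) + s i ^ q i else 0)
      (fun i => s i ^ q i * g i / u i)
      (fun i => div_ne_zero (mul_ne_zero (pow_ne_zero _ (hs0 i)) (hg i)) (hu0 i))
    refine ⟨x, fun i => ?_⟩
    have h1 := hx i (Finset.mem_range.2 i.2)
    simp only [i.2, dif_pos] at h1
    exact h1
  choose x hx using hx
  have hδ : ∀ η (i : Fin n),
      v i ((x η - a i (η i)) - s i ^ q i) < v i (s i ^ q i * g i / u i) := by
    intro η i
    have h1 : (x η - a i (η i)) - s i ^ q i = x η - (a i (η i) + s i ^ q i) := by ring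
    rw [h1]
    exact hx η i
  have hδ0 : ∀ η (i : Fin n), x η - a i (η i) ≠ 0 := by
    intro η i h
    have h1 := hδ η i
    rw [h, zero_sub, (v i).map_neg] at h1
    have h2 : v i (s i ^ q i * g i / u i) ≤ v i (s i ^ q i) := by
      rw [map_div₀, map_mul, div_le_iff₀ (vpos i (hu0 i))]
      exact mul_le_mul_right (hgu i) _
    exact absurd (h1.trans_le h2) (lt_irrefl _)
  have hcol : ∀ η : Fin n → Fin N, ∃ c : (i : Fin n) → {r : M // r ∈ R i}, ∀ i : Fin n,
      ∃ z : M, ((x η - a i (η i) : E) : M) = (c i : M) * z ^ q i := by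
    intro η
    have h1 : ∀ i : Fin n, ∃ r : {r : M // r ∈ R i}, ∃ z : M,
        ((x η - a i (η i) : E) : M) = (r : M) * z ^ q i := by
      intro i
      obtain ⟨r, hr, z, hz⟩ := hR i ((x η - a i (η i) : E) : M)
        (fun h => hδ0 η i (Subtype.ext h))
      exact ⟨⟨r, hr⟩, z, hz⟩
    choose c hc using h1
    exact ⟨c, hc⟩
  choose col hcol using hcol
  obtain ⟨b, hb, c, hc⟩ := hN col
  refine ⟨fun i j => ((a i (b i j) : E) : M), fun i => (c i : M), fun η => ?_⟩
  let θ : Fin n → Fin N := fun i => b i (η i)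
  refine ⟨((x θ : E) : M), fun i j => ⟨?_, ?_⟩⟩
  · rintro ⟨z, hz⟩
    by_contra hne'
    have hbne : (b i (η i) : ℕ) ≠ (b i j : ℕ) := fun h => hne' ((hb i (Fin.ext h)).symm)
    obtain ⟨r, hr0, hr1, hd, hfar⟩ := diff_far (v := v i) (hq i) (hg i) (hu i) (ht1 i) (ht2 i) hbne
    obtain ⟨z', hz'⟩ := hcol θ i
    have hcθ : col θ = c := hc η
    rw [hcθ] at hz'
    have h1 : ((x θ - a i (b i j) : E) : M) = (c i : M) * z ^ q i := by
      have h2 : ((x θ - a i (b i j) : E) : M) = (x θ : M) - (a i (b i j) : M) := rfl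
      rw [h2, hz]; ring
    have hz'0 : z' ^ q i ≠ 0 := by
      intro h
      rw [h, mul_zero] at hz'
      exact hδ0 θ i (Subtype.ext hz')
    have h3 : ((x θ - a i (b i j) : E) : M) =
        ((x θ - a i (θ i) : E) : M) * (z / z') ^ q i := by
      rw [h1, hz', div_pow]
      field_simp
    have hδM : ((x θ - a i (θ i) : E) : M) ≠ 0 := fun h => hδ0 θ i (Subtype.ext h)
    have h4 : (z / z') ^ q i = (((x θ - a i (b i j)) / (x θ - a i (θ i)) : E) : M) := by
      have h5 : (((x θ - a i (b i j)) / (x θ - a i (θ i)) : E) : M) =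
        ((x θ - a i (b i j) : E) : M) / ((x θ - a i (θ i) : E) : M) := rfl
      rw [h5, h3, mul_comm, mul_div_assoc, div_self hδM, mul_one]
    have h8 : z / z' ∈ E := by
      apply hE i
      rw [h4]
      exact Subtype.coe_prop _
    have h9 : x θ - a i (b i j) = (x θ - a i (θ i)) * (⟨z / z', h8⟩ : E) ^ q i := by
      apply Subtype.ext
      rw [h3]
      rfl
    refine quot_not (v := v i) (hq0 i) (hg i) (hu0 i) (hgu i) hr0 (hs0 i) (hs i) hr1 hd hfar
      (hδ θ i) (⟨z / z', h8⟩ : E) ?_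
    rw [← h9]
    simp only [a, θ]
    ring
  · rintro rfl
    obtain ⟨z, hz⟩ := hcol θ i
    have hcθ : col θ = c := hc η
    rw [hcθ] at hz
    refine ⟨z, ?_⟩
    rw [← hz]
    have h2 : ((x θ - a i (θ i) : E) : M) = (x θ : M) - (a i (b i (η i)) : M) := rfl
    rw [h2]; ring

end Pool.Agent.Lib.MP_c907c5_lc.SN
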