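import Mathlib

set_option autoImplicit false
open FirstOrder FirstOrder.Language FirstOrder.Ring

namespace Pool.Agent.Lib.MP_c907c5_lc.SN

/-- The ordered field `K`, as a structure for the language of ordered rings, is strongly NIP
(the same text as the hypothesis of the frozen statement): there are no formulas
`φ i (x, y_i)`, `i < ω`, with `x` a `p`-tuple, such that for all `n`, `w` there are parameters
`b i j` (`i < n`, `j < w`) for which every path `η : n → w` is realised by some `a`. -/
def StronglyNIP (K : Type) [Field K] [CompatibleRing K] [Language.order.Structure K] : Prop :=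
  ¬ ∃ (p : ℕ) (m : ℕ → ℕ)
      (φ : (i : ℕ) → (Language.ring.sum Language.order).Formula (Fin p ⊕ Fin (m i))),
      ∀ n w : ℕ, ∃ b : (i : Fin n) → Fin w → Fin (m i.val) → K,
        ∀ η : Fin n → Fin w, ∃ a : Fin p → K, ∀ (i : Fin n) (j : Fin w),
          ((φ i.val).Realize (Sum.elim a (b i j)) ↔ j = η i)

end Pool.Agent.Lib.MP_c907c5_lc.SN
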