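import Pool.Agent.Lib.MP_c907c5_lc.SN.KS

/-! Kaplan-Shelah: finitely many classes modulo `q`-th powers for almost all `q`. -/

set_option autoImplicit false
open FirstOrder FirstOrder.Language FirstOrder.Ring

namespace Pool.Agent.Lib.MP_c907c5_lc.SN

theorem finite_reps (K : Type) [Field K] [CompatibleRing K] [Language.order.Structure K]
    (hK : StronglyNIP K) (M : Type) [Field M] [Algebra K M] [FiniteDimensional K M] :
    ∃ s : Finset ℕ, ∀ q : ℕ, q.Prime → q ∉ s → ∃ R : Finset M, ∀ x : M, x ≠ 0 →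
      ∃ r ∈ R, ∃ z : M, x = r * z ^ q := by
  classical
  let bad : Set ℕ := {q | q.Prime ∧ ∀ R : Finset M, ∃ x : M, x ≠ 0 ∧ ∀ r ∈ R, ∀ z : M,
    x ≠ r * z ^ q}
  by_cases hfin : bad.Finite
  · refine ⟨hfin.toFinset, fun q hq hqs => ?_⟩
    by_contra h
    push Not at h
    exact hqs (hfin.mem_toFinset.2 ⟨hq, h⟩)
  · exfalso
    have hinf : bad.Infinite := hfin
    let e := hinf.natEmbedding
    have hbad : ∀ i : ℕ, (e i : ℕ) ∈ bad := fun i => (e i).2
    have hseq : ∀ i : ℕ, ∃ f : ℕ → M, (∀ n, f n ≠ 0) ∧ ∀ m n, m < n →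
        ∀ z : M, f n ≠ f m * z ^ (e i : ℕ) := by
      intro i
      refine exists_seq_of_forall_finset_exists (fun x : M => x ≠ 0)
        (fun x y => ∀ z : M, y ≠ x * z ^ (e i : ℕ)) fun s _ => ?_
      obtain ⟨x, hx0, hx⟩ := (hbad i).2 s
      exact ⟨x, hx0, fun r hr z => hx r hr z⟩
    choose f hf0 hf using hseq
    exact ks K hK M (fun i => (e i : ℕ)) (fun i => (hbad i).1)
      (fun i j hij => e.injective (Subtype.ext hij)) f hf0 (fun i j k hjk z => hf i j k hjk z)

end Pool.Agent.Lib.MP_c907c5_lc.SN
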