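import Pool.Agent.Lib.MP_c907c5_lc.SN.Mul

/-! The formula for `x = y * z ^ q` in coordinates. -/

set_option autoImplicit false
open FirstOrder FirstOrder.Language FirstOrder.Ring

namespace Pool.Agent.Lib.MP_c907c5_lc.SN

private theorem map_powc {R S : Type*} [CommRing R] [CommRing S] (f : R →+* S) {d : ℕ}
    (c : Fin d → Fin d → Fin d → R) (y z : Fin d → R) (n : ℕ) (k : Fin d) :
    f (powc c y z n k) = powc (fun i j k => f (c i j k)) (fun i => f (y i)) (fun i => f (z i)) n k := by
  induction n generalizing k with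
  | zero => rfl
  | succ n ih =>
    change f (∑ i, ∑ j, c i j k * powc c y z n i * z j) =
      ∑ i, ∑ j, f (c i j k) * powc (fun i j k => f (c i j k)) (fun i => f (y i)) (fun i => f (z i)) n i * f (z j)
    simp only [map_sum, map_mul, ih]

theorem pow_formula (K : Type) [Field K] [CompatibleRing K] [Language.order.Structure K]
    (d q : ℕ) :
    ∃ (m : ℕ) (code : (Fin d → K) → (Fin d → Fin d → Fin d → K) → Fin m → K)
      (φ : (Language.ring.sum Language.order).Formula (Fin d ⊕ Fin m)),
      ∀ (x y : Fin d → K) (c : Fin d → Fin d → Fin d → K),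
        φ.Realize (Sum.elim x (code y c)) ↔ ∃ z : Fin d → K, x = powc c y z q := by
  classical
  let e : (Fin d ⊕ (Fin d × Fin d × Fin d)) ≃ Fin (Fintype.card (Fin d ⊕ (Fin d × Fin d × Fin d))) := Fintype.equivFin _
  let V : Type := (Fin d ⊕ Fin (Fintype.card (Fin d ⊕ (Fin d × Fin d × Fin d)))) ⊕ Fin d
  let P : Fin d → FreeCommRing V := powc
    (fun i j k => FreeCommRing.of (Sum.inl (Sum.inr (e (Sum.inr (i, j, k)))) : V))
    (fun i => FreeCommRing.of (Sum.inl (Sum.inr (e (Sum.inl i))) : V)) (fun i => FreeCommRing.of (Sum.inr i : V)) q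
  let ψ : Language.ring.Formula V := Formula.iInf fun k : Fin d =>
    Term.equal (Term.var (Sum.inl (Sum.inl k) : V)) (termOfFreeCommRing (P k))
  let code : (Fin d → K) → (Fin d → Fin d → Fin d → K) → Fin (Fintype.card (Fin d ⊕ (Fin d × Fin d × Fin d))) → K :=
    fun y c i => Sum.elim y (fun p => c p.1 p.2.1 p.2.2) (e.symm i)
  refine ⟨_, code, (LHom.sumInl : Language.ring →ᴸ Language.ring.sum Language.order).onFormula (Formula.iExs (Fin d) ψ), ?_⟩
  intro x y c
  rw [LHom.realize_onFormula, Formula.realize_iExs]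
  refine exists_congr fun z => ?_
  rw [Formula.realize_iInf, funext_iff]
  refine forall_congr' fun k => ?_
  rw [Formula.realize_equal, Term.realize_var, realize_termOfFreeCommRing]
  have h1 : FreeCommRing.lift (Sum.elim (Sum.elim x (code y c)) z) (P k) = powc c y z q k := by
    rw [map_powc]
    simp only [FreeCommRing.lift_of, Sum.elim_inl, Sum.elim_inr, code, Equiv.symm_apply_apply]
  rw [h1]
  rfl

end Pool.Agent.Lib.MP_c907c5_lc.SN
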