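import Mathlib

/-! A prime of small exponent, over a Dedekind domain. -/

set_option autoImplicit false
open IsDedekindDomain

namespace Pool.Agent.Lib.MP_c907c5_lc.SN

section

variable (R F₀ N C : Type) [CommRing R] [IsDedekindDomain R] [Field F₀]
    [Algebra R F₀] [IsFractionRing R F₀] [Field N] [Algebra F₀ N] [FiniteDimensional F₀ N]
    [Algebra R N] [IsScalarTower R F₀ N] [CommRing C] [IsDedekindDomain C] [Algebra R C]
    [Algebra C N] [IsScalarTower R C N] [IsFractionRing C N] [Module.Finite R C]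

omit [IsDedekindDomain R] [FiniteDimensional F₀ N] in
include F₀ in
private theorem GPr_inj : Function.Injective (algebraMap R N) := by
  rw [IsScalarTower.algebraMap_eq R F₀ N]
  exact (algebraMap F₀ N).injective.comp (IsFractionRing.injective R F₀)

omit [IsDedekindDomain R] [FiniteDimensional F₀ N] [IsDedekindDomain C] [IsFractionRing C N]
  [Module.Finite R C] in
include F₀ N in
private theorem GPr_inj' : Function.Injective (algebraMap R C) := by
  have h := GPr_inj R F₀ N
  rw [IsScalarTower.algebraMap_eq R C N, RingHom.coe_comp] at h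
  exact h.of_comp

/-- an element whose exponent is at least one and at most the degree -/
private theorem GPr_ram (v : HeightOneSpectrum C) :
    ∃ (p : R) (e : ℕ), 1 ≤ e ∧ e ≤ Module.finrank F₀ N ∧
      v.valuation N (algebraMap R N p) = WithZero.exp (-(e : ℤ)) := by
  have : Module.IsTorsionFree R C :=
    Module.isTorsionFree_iff_algebraMap_injective.2 (GPr_inj' R F₀ N C)
  have : NoZeroSMulDivisors R C := ⟨fun {c x} h => by
    rw [Algebra.smul_def, mul_eq_zero, map_eq_zero_iff _ (GPr_inj' R F₀ N C)] at h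
    exact h⟩
  have : v.asIdeal.IsPrime := v.isPrime
  have : v.asIdeal.IsMaximal := v.isMaximal
  let w : HeightOneSpectrum R := ⟨v.asIdeal.under R, inferInstance,
    Ideal.IsIntegral.comap_ne_bot R v.ne_bot⟩
  have : w.asIdeal.IsMaximal := w.isMaximal
  have : v.asIdeal.LiesOver w.asIdeal := ⟨rfl⟩
  obtain ⟨p, hp⟩ := w.intValuation_exists_uniformizer
  refine ⟨p, w.asIdeal.ramificationIdx' v.asIdeal, ?_, ?_, ?_⟩
  · exact Nat.one_le_iff_ne_zero.2
      (Ideal.IsDedekindDomain.ramificationIdx'_ne_zero_of_liesOver v.asIdeal w.ne_bot)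
  · exact Ideal.ramificationIdx_le_finrank C F₀ N v.asIdeal
  · rw [IsScalarTower.algebraMap_apply R C N, HeightOneSpectrum.valuation_of_algebraMap,
      ← HeightOneSpectrum.intValuation_liesOver w v p, hp, ← WithZero.exp_nsmul]
    congr 1
    simp

end

theorem prime_small_gen (R F₀ N C : Type) [CommRing R] [IsDedekindDomain R] [Field F₀]
    [Algebra R F₀] [IsFractionRing R F₀] [Field N] [Algebra F₀ N] [FiniteDimensional F₀ N]
    [Algebra R N] [IsScalarTower R F₀ N] [CommRing C] [IsDedekindDomain C] [Algebra R C]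
    [Algebra C N] [IsScalarTower R C N] [IsFractionRing C N] [Module.Finite R C]
    (hU : ∀ x : C, x ≠ 0 → ∃ t : R, ¬ IsUnit (1 - algebraMap R C t * x))
    (α α' : N) (h : α ≠ α') (hα : ∀ n : F₀, algebraMap F₀ N n ≠ α)
    (hα' : ∀ n : F₀, algebraMap F₀ N n ≠ α') (q : ℕ) (hq : Module.finrank F₀ N < q)
    (s : Finset F₀) :
    ∃ n : F₀, ∃ v : HeightOneSpectrum C,
      (∃ k : ℕ, 1 ≤ k ∧ k < q ∧
        v.valuation N (algebraMap F₀ N n - α) = WithZero.exp (-(k : ℤ))) ∧
      v.valuation N (algebraMap F₀ N n - α') = 1 ∧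
      ∀ m ∈ s, v.valuation N (algebraMap F₀ N m - α) = 1 ∧
        v.valuation N (algebraMap F₀ N m - α') = 1 := by
  classical
  have hinj := GPr_inj R F₀ N
  have hinj' := GPr_inj' R F₀ N C
  have hCN : Function.Injective (algebraMap C N) := IsFractionRing.injective C N
  have hden : ∀ d : C, d ≠ 0 → ∃ D : R, D ≠ 0 ∧ d ∣ algebraMap R C D := by
    intro d hd
    have h1 : (Ideal.span {d}).comap (algebraMap R C) ≠ ⊥ :=
      Ideal.comap_ne_bot_of_integral_mem hd (Ideal.mem_span_singleton_self d)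
        (Algebra.IsIntegral.isIntegral d)
    obtain ⟨D, hD, hD0⟩ := Submodule.exists_mem_ne_zero_of_ne_bot h1
    exact ⟨D, hD0, Ideal.mem_span_singleton.1 hD⟩
  have hone : ∀ x : N, ∃ r : R, r ≠ 0 ∧ ∃ c : C, algebraMap C N c = algebraMap R N r * x := by
    intro x
    obtain ⟨c, d, hd, rfl⟩ := IsFractionRing.div_surjective (A := C) x
    have hd0 : d ≠ 0 := nonZeroDivisors.ne_zero hd
    obtain ⟨D, hD0, e, he⟩ := hden d hd0
    refine ⟨D, hD0, e * c, ?_⟩
    have hdN : algebraMap C N d ≠ 0 := by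
      rw [Ne, map_eq_zero_iff _ hCN]
      exact hd0
    rw [IsScalarTower.algebraMap_apply R C N, he, map_mul, map_mul]
    field_simp
  have hmany : ∀ S : Finset N, ∃ r : R, r ≠ 0 ∧
      ∀ x ∈ S, ∃ c : C, algebraMap C N c = algebraMap R N r * x := by
    intro S
    induction S using Finset.induction_on with
    | empty => exact ⟨1, one_ne_zero, by simp⟩
    | insert b S hb ih =>
      obtain ⟨r, hr, h1⟩ := ih
      obtain ⟨r', hr', c', hc'⟩ := hone b
      refine ⟨r * r', mul_ne_zero hr hr', ?_⟩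
      intro x hx
      rcases Finset.mem_insert.1 hx with rfl | hx
      · refine ⟨algebraMap R C r * c', ?_⟩
        rw [map_mul, hc', ← IsScalarTower.algebraMap_apply R C N, map_mul]
        ring
      · obtain ⟨c, hc⟩ := h1 x hx
        refine ⟨algebraMap R C r' * c, ?_⟩
        rw [map_mul, hc, ← IsScalarTower.algebraMap_apply R C N, map_mul]
        ring
  obtain ⟨r, hr, hS⟩ := hmany (insert α (insert α' (s.image (algebraMap F₀ N))))
  obtain ⟨a, ha⟩ := hS α (Finset.mem_insert_self _ _)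
  obtain ⟨a', ha'⟩ := hS α' (Finset.mem_insert_of_mem (Finset.mem_insert_self _ _))
  have hm : ∀ m ∈ s, ∃ c : C, algebraMap C N c = algebraMap R N r * algebraMap F₀ N m := by
    intro m hm
    exact hS _ (Finset.mem_insert_of_mem (Finset.mem_insert_of_mem (Finset.mem_image_of_mem _ hm)))
  choose! f hf using hm
  have hrN : algebraMap R N r ≠ 0 := by
    rw [Ne, map_eq_zero_iff _ hinj]
    exact hr
  have hrF : algebraMap R F₀ r ≠ 0 := by
    rw [Ne, map_eq_zero_iff _ (IsFractionRing.injective R F₀)]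
    exact hr
  have hcanc : ∀ (x y : C) (X Y : N), algebraMap C N x = algebraMap R N r * X →
      algebraMap C N y = algebraMap R N r * Y → X ≠ Y → x - y ≠ 0 := by
    intro x y X Y hx hy hXY h0
    apply hXY
    have h1 : algebraMap C N x = algebraMap C N y := by rw [sub_eq_zero.1 h0]
    rw [hx, hy] at h1
    exact mul_left_cancel₀ hrN h1
  obtain ⟨β, hβ⟩ : ∃ β : C, β = algebraMap R C r *
      ((a - a') * ∏ m ∈ s, ((f m - a) * (f m - a'))) := ⟨_, rfl⟩
  have hβ0 : β ≠ 0 := by
    rw [hβ]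
    refine mul_ne_zero ?_ (mul_ne_zero (hcanc _ _ _ _ ha ha' h)
      (Finset.prod_ne_zero_iff.2 fun m hms => mul_ne_zero (hcanc _ _ _ _ (hf m hms) ha (hα m))
        (hcanc _ _ _ _ (hf m hms) ha' (hα' m))))
    rw [Ne, map_eq_zero_iff _ hinj']
    exact hr
  have hα0 : α ≠ 0 := by
    intro h0
    exact hα 0 (by rw [map_zero, h0])
  have ha0 : a ≠ 0 := by
    rintro rfl
    rw [map_zero] at ha
    exact (mul_ne_zero hrN hα0) ha.symm
  obtain ⟨D, hD0, hβD⟩ := hden β hβ0
  obtain ⟨P, hP0, w, hw⟩ := hden a ha0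
  have hDC : algebraMap R C D ≠ 0 := by
    rw [Ne, map_eq_zero_iff _ hinj']
    exact hD0
  have hw0 : w ≠ 0 := by
    rintro rfl
    rw [mul_zero, map_eq_zero_iff _ hinj'] at hw
    exact hP0 hw
  obtain ⟨t, ht⟩ := hU (algebraMap R C D * w) (mul_ne_zero hDC hw0)
  obtain ⟨u, hu⟩ : ∃ u : C, u = 1 - algebraMap R C t * (algebraMap R C D * w) := ⟨_, rfl⟩
  rw [← hu] at ht
  obtain ⟨I, hI, huI⟩ := exists_max_ideal_of_mem_nonunits ht
  obtain ⟨n, hn⟩ : ∃ n : F₀, n = algebraMap R F₀ (D * t * P) / algebraMap R F₀ r := ⟨_, rfl⟩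
  have hrn : algebraMap R N r * algebraMap F₀ N n = algebraMap R N (D * t * P) := by
    rw [IsScalarTower.algebraMap_apply R F₀ N r, IsScalarTower.algebraMap_apply R F₀ N (D * t * P),
      ← map_mul, hn, mul_div_cancel₀ _ hrF]
  have hnα : algebraMap R N r * (algebraMap F₀ N n - α) = algebraMap C N (-(a * u)) := by
    rw [mul_sub, hrn, ← ha, IsScalarTower.algebraMap_apply R C N, ← map_sub, hu]
    congr 1
    rw [map_mul, map_mul, hw]
    ring
  have hnα0 : algebraMap F₀ N n - α ≠ 0 := sub_ne_zero.2 (hα n)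
  have hu0 : u ≠ 0 := by
    rintro rfl
    rw [mul_zero, neg_zero, map_zero] at hnα
    exact (mul_ne_zero hrN hnα0) hnα
  obtain ⟨v, hv⟩ : ∃ v : HeightOneSpectrum C, v.asIdeal = I :=
    ⟨⟨I, hI.isPrime, fun h0 => hu0 (by rw [h0] at huI; exact (Submodule.mem_bot _).1 huI)⟩, rfl⟩
  rw [← hv] at huI
  have hDv : algebraMap R C D ∉ v.asIdeal := by
    intro h0
    apply v.isPrime.ne_top
    rw [Ideal.eq_top_iff_one]
    have e : (1 : C) = u + algebraMap R C D * (algebraMap R C t * w) := by
      rw [hu]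
      ring
    rw [e]
    exact v.asIdeal.add_mem huI (v.asIdeal.mul_mem_right _ h0)
  have hnv : ∀ x : C, x ∣ β → x ∉ v.asIdeal := by
    intro x hx h0
    obtain ⟨y, hy⟩ := hx.trans hβD
    apply hDv
    rw [hy]
    exact v.asIdeal.mul_mem_right _ h0
  have hval : ∀ x : C, x ∉ v.asIdeal → v.valuation N (algebraMap C N x) = 1 := by
    intro x hx
    exact (HeightOneSpectrum.valuation_eq_one_iff_notMem v).2 hx
  have hvr : v.valuation N (algebraMap R N r) = 1 := by
    rw [IsScalarTower.algebraMap_apply R C N]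
    exact hval _ (hnv _ (by rw [hβ]; exact dvd_mul_right _ _))
  -- values of differences
  have hdiff : ∀ (x y : C) (X Y : N), algebraMap C N x = algebraMap R N r * X →
      algebraMap C N y = algebraMap R N r * Y → x - y ∣ β → v.valuation N (X - Y) = 1 := by
    intro x y X Y hx hy hd
    have h1 := hval _ (hnv _ hd)
    rw [map_sub, hx, hy, ← mul_sub, map_mul, hvr, one_mul] at h1
    exact h1
  have hαα : v.valuation N (α - α') = 1 :=
    hdiff _ _ _ _ ha ha' (by rw [hβ]; exact (dvd_mul_right _ _).trans (dvd_mul_left _ _))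
  have hms : ∀ m ∈ s, v.valuation N (algebraMap F₀ N m - α) = 1 ∧
      v.valuation N (algebraMap F₀ N m - α') = 1 := by
    intro m hms
    have h1 : (f m - a) * (f m - a') ∣ β := by
      rw [hβ]
      exact ((Finset.dvd_prod_of_mem (fun m => (f m - a) * (f m - a')) hms).trans
        (dvd_mul_left _ _)).trans (dvd_mul_left _ _)
    exact ⟨hdiff _ _ _ _ (hf m hms) ha ((dvd_mul_right _ _).trans h1),
      hdiff _ _ _ _ (hf m hms) ha' ((dvd_mul_left _ _).trans h1)⟩
  have hoth : ∀ z : N, v.valuation N (z - α) < 1 → v.valuation N (z - α') = 1 := by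
    intro z hz
    have e : z - α' = (z - α) + (α - α') := by ring
    rw [e, Valuation.map_add_eq_of_lt_right _ (by rw [hαα]; exact hz), hαα]
  have hy0 : -(a * u) ≠ 0 := neg_ne_zero.2 (mul_ne_zero ha0 hu0)
  obtain ⟨k, hk⟩ : ∃ k : ℕ, v.intValuation (-(a * u)) = WithZero.exp (-(k : ℤ)) :=
    ⟨_, v.intValuation_if_neg hy0⟩
  have hkv : v.valuation N (algebraMap F₀ N n - α) = WithZero.exp (-(k : ℤ)) := by
    have h1 := congrArg (v.valuation N) hnα
    rw [map_mul, hvr, one_mul, HeightOneSpectrum.valuation_of_algebraMap, hk] at h1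
    exact h1
  have hmem : -(a * u) ∈ v.asIdeal := v.asIdeal.neg_mem (v.asIdeal.mul_mem_left _ huI)
  have hk1 : 1 ≤ k := by
    rcases Nat.eq_zero_or_pos k with h0 | h0
    · exfalso
      have h1 := (v.intValuation_lt_one_iff_mem _).2 hmem
      rw [hk, h0] at h1
      simp at h1
    · exact h0
  have hexp : ∀ j : ℕ, 1 ≤ j → WithZero.exp (-(j : ℤ)) < (1 : WithZero (Multiplicative ℤ)) := by
    intro j hj
    rw [← WithZero.exp_zero, WithZero.exp_lt_exp]
    omega
  by_cases hkq : k < q
  · exact ⟨n, v, ⟨k, hk1, hkq, hkv⟩, hoth _ (by rw [hkv]; exact hexp k hk1), hms⟩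
  · obtain ⟨p, e, he1, he2, hpe⟩ := GPr_ram R F₀ N C v
    have hval' : v.valuation N (algebraMap F₀ N (n + algebraMap R F₀ p) - α) =
        WithZero.exp (-(e : ℤ)) := by
      have e1 : algebraMap F₀ N (n + algebraMap R F₀ p) - α =
          (algebraMap F₀ N n - α) + algebraMap R N p := by
        rw [map_add, ← IsScalarTower.algebraMap_apply R F₀ N]
        ring
      rw [e1, ← hpe]
      apply Valuation.map_add_eq_of_lt_right
      rw [hkv, hpe, WithZero.exp_lt_exp]
      omega
    exact ⟨n + algebraMap R F₀ p, v, ⟨e, he1, by omega, hval'⟩,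
      hoth _ (by rw [hval']; exact hexp e he1), hms⟩

end Pool.Agent.Lib.MP_c907c5_lc.SN
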