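import Mathlib

/-! Non-constant polynomials take non-unit values over `ℤ` and over `k[X]`. -/

set_option autoImplicit false
open Polynomial

namespace Pool.Agent.Lib.MP_c907c5_lc.SN

theorem nc_int (P : Polynomial ℤ) (hP : 1 ≤ P.natDegree) : ∃ t : ℤ, ¬ IsUnit (P.eval t) := by
  by_contra! h
  have h1 : (P - 1) * (P + 1) = 0 := by
    refine Polynomial.funext fun t => ?_
    rcases Int.isUnit_iff.1 (h t) with h2 | h2 <;> simp [h2]
  rcases mul_eq_zero.1 h1 with h2 | h2
  · rw [sub_eq_zero.1 h2] at hP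
    simp at hP
  · rw [eq_neg_of_add_eq_zero_left h2] at hP
    simp at hP

theorem nc_poly (k : Type) [Field k] (P : Polynomial (Polynomial k)) (hP : 1 ≤ P.natDegree) :
    ∃ t : Polynomial k, ¬ IsUnit (P.eval t) := by
  by_contra! h
  have h1 : ∀ n : ℕ, P.eval ((X : Polynomial k) ^ (n + 1)) = P.eval 0 := by
    intro n
    have hd : (X : Polynomial k) ^ (n + 1) ∣ P.eval ((X : Polynomial k) ^ (n + 1)) - P.eval 0 := by
      have h2 := Polynomial.sub_dvd_eval_sub ((X : Polynomial k) ^ (n + 1)) 0 P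
      rwa [sub_zero] at h2
    obtain ⟨a, -, ha⟩ := Polynomial.isUnit_iff.1 (h ((X : Polynomial k) ^ (n + 1)))
    obtain ⟨b, -, hb⟩ := Polynomial.isUnit_iff.1 (h 0)
    by_contra hne
    have h3 : P.eval ((X : Polynomial k) ^ (n + 1)) - P.eval 0 ≠ 0 := sub_ne_zero.2 hne
    have h4 := Polynomial.natDegree_le_of_dvd hd h3
    rw [← ha, ← hb, ← C_sub, natDegree_C, natDegree_X_pow] at h4
    omega
  have h2 : P - C (P.eval 0) = 0 := by
    refine Polynomial.eq_zero_of_infinite_isRoot _
      (Set.infinite_of_injective_forall_mem (f := fun n : ℕ => (X : Polynomial k) ^ (n + 1)) ?_ ?_)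
    · intro m n hmn
      have h3 := congrArg Polynomial.natDegree hmn
      simp only [natDegree_X_pow] at h3
      omega
    · intro n
      show (P - C (P.eval 0)).eval _ = 0
      rw [eval_sub, eval_C, h1 n, sub_self]
  rw [sub_eq_zero.1 h2, natDegree_C] at hP
  omega

end Pool.Agent.Lib.MP_c907c5_lc.SN
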