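import Mathlib

/-! Non-units `1 - t x` in a finite extension of a principal ideal domain. -/

set_option autoImplicit false
open Polynomial

namespace Pool.Agent.Lib.MP_c907c5_lc.SN

private theorem nu_eval {R : Type} [CommRing R] {n : Type} [Fintype n] [DecidableEq n]
    (A : Matrix n n R) (t : R) : A.charpolyRev.eval t = (1 - t • A).det := by
  rw [Matrix.charpolyRev, ← Polynomial.coe_evalRingHom, RingHom.map_det]
  congr 1
  ext i j
  by_cases h : i = j
  · subst h
    simp
    exact mul_comm _ _
  · simp [Matrix.one_apply_ne h]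
    exact mul_comm _ _

private theorem nu_deg {R : Type} [CommRing R] [IsDomain R] {n : Type} [Fintype n] [DecidableEq n]
    [Nonempty n] (A : Matrix n n R) (hA : A.det ≠ 0) : 1 ≤ A.charpolyRev.natDegree := by
  have h0 : A.charpoly.coeff 0 ≠ 0 := by
    intro h
    apply hA
    rw [Matrix.det_eq_sign_charpoly_coeff, h, mul_zero]
  have h1 : A.charpoly.natTrailingDegree = 0 := by
    have := Polynomial.natTrailingDegree_le_of_ne_zero h0
    omega
  rw [← Matrix.reverse_charpoly, Polynomial.reverse_natDegree, h1, Matrix.charpoly_natDegree_eq_dim]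
  have : 0 < Fintype.card n := Fintype.card_pos
  omega

theorem nonunit_of (R : Type) [CommRing R] [IsDomain R] [IsPrincipalIdealRing R]
    (hR : ∀ P : Polynomial R, 1 ≤ P.natDegree → ∃ t : R, ¬ IsUnit (P.eval t))
    (C : Type) [CommRing C] [IsDomain C] [Algebra R C] [Module.Finite R C]
    (hinj : Function.Injective (algebraMap R C)) (x : C) (hx : x ≠ 0) :
    ∃ t : R, ¬ IsUnit (1 - algebraMap R C t * x) := by
  classical
  have : FaithfulSMul R C := (faithfulSMul_iff_algebraMap_injective R C).mpr hinj
  have : Module.IsTorsionFree R C := inferInstance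
  have : Module.Free R C := inferInstance
  let b := Module.Free.chooseBasis R C
  have : Nonempty (Module.Free.ChooseBasisIndex R C) := b.index_nonempty
  let A := Algebra.leftMulMatrix b x
  have hdet : A.det ≠ 0 := by
    have h : Algebra.norm R x ≠ 0 := by
      intro h
      exact hx ((Algebra.norm_eq_zero_iff_of_basis b).mp h)
    rwa [Algebra.norm_eq_matrix_det b] at h
  obtain ⟨t, ht⟩ := hR A.charpolyRev (nu_deg A hdet)
  refine ⟨t, fun hu => ht ?_⟩
  have h1 := hu.map (Algebra.norm R)
  rw [Algebra.norm_eq_matrix_det b] at h1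
  rw [nu_eval]
  have h2 : Algebra.leftMulMatrix b (1 - algebraMap R C t * x) = 1 - t • A := by
    rw [map_sub, map_one, ← Algebra.smul_def, map_smul]
  rwa [h2] at h1

end Pool.Agent.Lib.MP_c907c5_lc.SN
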