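import Pool.Agent.Lib.MP_c907c5_lc.SN.GCore
import Pool.Agent.Lib.MP_c907c5_lc.SN.GPr
import Pool.Agent.Lib.MP_c907c5_lc.SN.NU
import Pool.Agent.Lib.MP_c907c5_lc.SN.NC

/-! The base fields: `ℚ` and `k(t)`. -/

set_option autoImplicit false
open IsDedekindDomain Polynomial

namespace Pool.Agent.Lib.MP_c907c5_lc.SN

theorem primes_of (R F₀ : Type) [CommRing R] [IsDomain R] [IsPrincipalIdealRing R] [Field F₀]
    [CharZero F₀] [Algebra R F₀] [IsFractionRing R F₀]
    (hR : ∀ P : Polynomial R, 1 ≤ P.natDegree → ∃ t : R, ¬ IsUnit (P.eval t)) :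
    Primes F₀ := by
  intro N _ _ _ α α' h hα hα' q hq s
  let _ : Algebra R N := ((algebraMap F₀ N).comp (algebraMap R F₀)).toAlgebra
  have : IsScalarTower R F₀ N := IsScalarTower.of_algebraMap_eq' rfl
  let C := integralClosure R N
  have : IsDedekindDomain C := IsIntegralClosure.isDedekindDomain R F₀ N C
  have : IsFractionRing C N := IsIntegralClosure.isFractionRing_of_finite_extension R F₀ N C
  have : Module.Finite R C := IsIntegralClosure.finite R F₀ N C
  have hinj : Function.Injective (algebraMap R C) := by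
    have h1 : Function.Injective (algebraMap R N) :=
      (algebraMap F₀ N).injective.comp (IsFractionRing.injective R F₀)
    intro x y hxy
    apply h1
    rw [IsScalarTower.algebraMap_apply R C N, hxy, ← IsScalarTower.algebraMap_apply R C N]
  obtain ⟨n, v, h1, h2, h3⟩ := prime_small_gen R F₀ N C
    (fun x hx => nonunit_of R hR C hinj x hx) α α' h hα hα' q hq s
  exact ⟨n, v.valuation N, h1, h2, h3⟩

theorem primes_base (F₀ : Type) [Field F₀] [CharZero F₀]
    (hF₀ : Nonempty (F₀ ≃+* ℚ) ∨ ∃ (k : Type) (_ : Field k), Nonempty (F₀ ≃+* RatFunc k)) :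
    Primes F₀ := by
  rcases hF₀ with ⟨⟨e⟩⟩ | ⟨k, _, ⟨e⟩⟩
  · have h1 : IsFractionRing ℤ F₀ :=
      IsLocalization.isLocalization_of_algEquiv (nonZeroDivisors ℤ)
        (AlgEquiv.ofRingEquiv (f := e.symm) (fun x => by simp) : ℚ ≃ₐ[ℤ] F₀)
    exact primes_of ℤ F₀ nc_int
  · let _ : Algebra k[X] F₀ :=
      ((e.symm : RatFunc k →+* F₀).comp (algebraMap k[X] (RatFunc k))).toAlgebra
    have h1 : IsFractionRing k[X] F₀ :=
      IsLocalization.isLocalization_of_algEquiv (nonZeroDivisors k[X])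
        (AlgEquiv.ofRingEquiv (f := e.symm) (fun x => rfl) : RatFunc k ≃ₐ[k[X]] F₀)
    exact primes_of k[X] F₀ (nc_poly k)

end Pool.Agent.Lib.MP_c907c5_lc.SN
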