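import Pool.Agent.Lib.MP_c907c5_lc.SN.Gal

/-! The elements `n - α` are independent modulo `q`-th powers of the compositum. -/

set_option autoImplicit false
open IsDedekindDomain

namespace Pool.Agent.Lib.MP_c907c5_lc.SN

/-- Every finite extension of `F₀` has primes of small exponent dividing an element `n - α`. -/
def Primes (F₀ : Type) [Field F₀] : Prop :=
  ∀ (N : Type) [Field N] [Algebra F₀ N] [FiniteDimensional F₀ N] (α α' : N), α ≠ α' →
    (∀ n : F₀, algebraMap F₀ N n ≠ α) → (∀ n : F₀, algebraMap F₀ N n ≠ α') →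
    ∀ q : ℕ, Module.finrank F₀ N < q → ∀ s : Finset F₀,
    ∃ n : F₀, ∃ v : Valuation N (WithZero (Multiplicative ℤ)),
      (∃ k : ℕ, 1 ≤ k ∧ k < q ∧ v (algebraMap F₀ N n - α) = WithZero.exp (-(k : ℤ))) ∧
      v (algebraMap F₀ N n - α') = 1 ∧
      ∀ m ∈ s, v (algebraMap F₀ N m - α) = 1 ∧ v (algebraMap F₀ N m - α') = 1

theorem gcore (F₀ F A : Type) [Field F₀] [Field F] [CharZero F] [Field A] [Algebra F₀ F]
    [Algebra F₀ A] [Algebra F A] [IsScalarTower F₀ F A]
    [Algebra.IsAlgebraic F A] [IsAlgClosed A] (hF₀ : Primes F₀) (L N : IntermediateField F A)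
    [Normal F L] [Normal F N] [FiniteDimensional F₀ N] (σ : A ≃ₐ[F] A) (hσ : ∀ x ∈ L, σ x = x)
    (α : N) (hα : σ (α : A) ≠ (α : A)) (q : ℕ) (hq : q.Prime)
    (hqN : Module.finrank F₀ N < q) (s : Finset F₀) :
    ∃ n : F₀, ∀ m ∈ s, ∀ γ ∈ L ⊔ N,
      algebraMap F₀ A n - (α : A) ≠ (algebraMap F₀ A m - (α : A)) * γ ^ q := by
  classical
  have hc : ∀ n : F₀, ((algebraMap F₀ N n : N) : A) = algebraMap F₀ A n := fun n => rfl
  have hσF : ∀ n : F₀, σ (algebraMap F₀ A n) = algebraMap F₀ A n := by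
    intro n
    rw [IsScalarTower.algebraMap_apply F₀ F A, AlgEquiv.commutes]
  let σN : N ≃ₐ[F] N := σ.restrictNormal N
  have hσN : ∀ x : N, ((σN x : N) : A) = σ (x : A) := fun x => σ.restrictNormal_commutes N x
  let α' : N := σN α
  have hα' : ((α' : N) : A) = σ (α : A) := hσN _
  have h1 : α ≠ α' := by
    intro h
    apply hα
    rw [← hα', ← h]
  have h2 : ∀ n : F₀, algebraMap F₀ N n ≠ α := by
    intro n h
    apply hα
    rw [← h, hc, hσF]
  have h3 : ∀ n : F₀, algebraMap F₀ N n ≠ α' := by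
    intro n h
    apply hα
    have h4 : σ (α : A) = algebraMap F₀ A n := by
      rw [← hα', ← h, hc]
    have h5 : (α : A) = algebraMap F₀ A n := by
      apply σ.injective
      rw [h4, hσF]
    rw [h4, h5]
  obtain ⟨n, v, ⟨k, hk1, hkq, hk⟩, hv', hs⟩ := hF₀ N α α' h1 h2 h3 q hqN s
  refine ⟨n, fun m hm γ hγ heq => ?_⟩
  obtain ⟨hm1, hm2⟩ := hs m hm
  have hn0 : algebraMap F₀ A n - (α : A) ≠ 0 := by
    intro h
    apply h2 n
    apply Subtype.ext
    rw [hc]
    exact sub_eq_zero.1 h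
  have hm0 : algebraMap F₀ A m - (α : A) ≠ 0 := by
    intro h
    rw [h, zero_mul] at heq
    exact hn0 heq
  have hγ0 : γ ≠ 0 := by
    rintro rfl
    rw [zero_pow hq.ne_zero, mul_zero] at heq
    exact hn0 heq
  -- the quotient
  let β : N := (algebraMap F₀ N n - α) / (algebraMap F₀ N m - α)
  have hβ : (β : A) = γ ^ q := by
    have h4 : (β : A) = (algebraMap F₀ A n - (α : A)) / (algebraMap F₀ A m - (α : A)) := rfl
    rw [h4, heq, mul_comm, mul_div_assoc, div_self hm0, mul_one]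
  obtain ⟨c, hc', δ, hδ, hδ0, hσγ⟩ := gal F A L N σ hσ q hq γ hγ0 hγ (by
    rw [← hβ]; exact β.2)
  rw [← hβ] at hσγ
  have hN : σN β = β ^ c * (⟨δ, hδ⟩ : N) ^ q := by
    apply Subtype.ext
    rw [hσN, hσγ]
    simp
  have hσn : ∀ n : F₀, σN (algebraMap F₀ N n) = algebraMap F₀ N n := by
    intro n
    apply Subtype.ext
    rw [hσN, hc, hσF]
  have hσβ : σN β = (algebraMap F₀ N n - α') / (algebraMap F₀ N m - α') := by
    simp only [β, map_div₀, map_sub, hσn]
    rfl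
  have hvβ : v β = WithZero.exp (-(k : ℤ)) := by
    simp only [β]
    rw [map_div₀, hk, hm1, div_one]
  have hvσ : v (σN β) = 1 := by
    rw [hσβ, map_div₀, hv', hm2, div_one]
  have hδN : v (⟨δ, hδ⟩ : N) ≠ 0 := by
    rw [Valuation.ne_zero_iff]
    intro h
    exact hδ0 (congrArg Subtype.val h)
  rw [hN, map_mul, map_pow, map_pow, hvβ] at hvσ
  obtain ⟨t, ht⟩ : ∃ t : ℤ, v (⟨δ, hδ⟩ : N) = WithZero.exp t :=
    ⟨WithZero.log (v (⟨δ, hδ⟩ : N)), (WithZero.exp_log hδN).symm⟩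
  rw [ht, ← WithZero.exp_nsmul, ← WithZero.exp_nsmul, ← WithZero.exp_add] at hvσ
  have h6 : c • (-(k : ℤ)) + q • t = 0 := by
    have := congrArg WithZero.log hvσ
    simpa using this
  have h7 : (q : ℤ) ∣ (c : ℤ) * k := by
    refine ⟨t, ?_⟩
    simp only [nsmul_eq_mul] at h6
    linarith
  have h8 : q ∣ c * k := by exact_mod_cast h7
  rcases (Nat.Prime.dvd_mul hq).1 h8 with h9 | h9
  · exact hc' h9
  · exact absurd (Nat.le_of_dvd (by omega) h9) (by omega)

end Pool.Agent.Lib.MP_c907c5_lc.SN
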