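import Pool.Agent.Lib.MP_c907c5_lc.SN.Defs
import Pool.Agent.Lib.MP_c907c5_lc.SN.Form

/-! Kaplan-Shelah for finite extensions. -/

set_option autoImplicit false
open FirstOrder FirstOrder.Language FirstOrder.Ring

namespace Pool.Agent.Lib.MP_c907c5_lc.SN

private lemma coord_mul {K M : Type} [Field K] [Field M] [Algebra K M] {d : ℕ}
    (e : Module.Basis (Fin d) K M) (u v : M) :
    mulc (fun i j k => e.repr (e i * e j) k) (fun i => e.repr u i) (fun i => e.repr v i)
      = fun i => e.repr (u * v) i := by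
  funext k
  have hu : u = ∑ i, e.repr u i • e i := (e.sum_repr u).symm
  have hv : v = ∑ i, e.repr v i • e i := (e.sum_repr v).symm
  conv_rhs => rw [hu, hv, Finset.sum_mul_sum]
  simp only [mulc, map_sum, Finsupp.coe_finsetSum, Finset.sum_apply, smul_mul_smul_comm,
    map_smul, Finsupp.smul_apply, smul_eq_mul]
  refine Finset.sum_congr rfl fun i _ => Finset.sum_congr rfl fun j _ => ?_
  ring

private lemma coord_pow {K M : Type} [Field K] [Field M] [Algebra K M] {d : ℕ}
    (e : Module.Basis (Fin d) K M) (u v : M) (n : ℕ) :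
    powc (fun i j k => e.repr (e i * e j) k) (fun i => e.repr u i) (fun i => e.repr v i) n
      = fun i => e.repr (u * v ^ n) i := by
  induction n with
  | zero => simp [powc]
  | succ n ih => rw [powc, ih, coord_mul, pow_succ, mul_assoc]

private lemma exists_exp (n : ℕ) (q : ℕ → ℕ) (hq : ∀ i, (q i).Prime)
    (hinj : Function.Injective q) :
    ∃ N : Fin n → ℕ, (∀ i, N i % q i = 1) ∧ ∀ i k : Fin n, k ≠ i → q i ∣ N k := by
  have h : ∀ k : Fin n, ∃ m, (∏ i ∈ Finset.univ.erase k, q i) * m % q k = 1 := by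
    intro k
    have hc : Nat.Coprime (∏ i ∈ Finset.univ.erase k, q i) (q k) := by
      refine Nat.Coprime.prod_left fun i hi => ?_
      refine (Nat.coprime_primes (hq i) (hq k)).2 fun h => ?_
      exact (Finset.mem_erase.1 hi).1 (Fin.ext (hinj h))
    obtain ⟨m, -, hm⟩ := Nat.exists_mul_mod_eq_one_of_coprime hc (hq k).one_lt
    exact ⟨m, hm⟩
  choose m hm using h
  refine ⟨fun k => (∏ i ∈ Finset.univ.erase k, q i) * m k, fun i => hm i, fun i k hki => ?_⟩
  refine Dvd.dvd.mul_right (Finset.dvd_prod_of_mem (fun i : Fin n => q i) ?_) _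
  exact Finset.mem_erase.2 ⟨fun h => hki h.symm, Finset.mem_univ _⟩

theorem ks (K : Type) [Field K] [CompatibleRing K] [Language.order.Structure K]
    (hK : StronglyNIP K) (M : Type) [Field M] [Algebra K M] [FiniteDimensional K M]
    (q : ℕ → ℕ) (hq : ∀ i, (q i).Prime) (hinj : Function.Injective q)
    (g : ℕ → ℕ → M) (hg0 : ∀ i j, g i j ≠ 0)
    (hg : ∀ i j k, j < k → ∀ z : M, g i k ≠ g i j * z ^ q i) : False := by
  classical
  set d := Module.finrank K M with hd
  let e : Module.Basis (Fin d) K M := Module.finBasis K M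
  choose m code φ hφ using fun i => pow_formula K d (q i)
  apply hK
  refine ⟨d, m, φ, fun n w => ⟨fun i j => code i (fun k => e.repr (g i j) k)
    (fun i j k => e.repr (e i * e j) k), fun η => ?_⟩⟩
  obtain ⟨N, hN1, hN2⟩ := exists_exp n q hq hinj
  set x : M := ∏ k : Fin n, g k (η k) ^ N k with hx
  have hx0 : x ≠ 0 := Finset.prod_ne_zero_iff.2 fun k _ => pow_ne_zero _ (hg0 _ _)
  refine ⟨fun k => e.repr x k, fun i j => ?_⟩
  rw [hφ]
  -- the product is `g i (η i)` times a power
  have hz' : ∃ z' : M, x = g i (η i) * z' ^ q i := by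
    have h1 : ∀ k : Fin n, ∃ t : ℕ, k ≠ i → N k = q i * t := by
      intro k
      by_cases hk : k = i
      · exact ⟨0, fun h => absurd hk h⟩
      · obtain ⟨t, ht⟩ := hN2 i k hk
        exact ⟨t, fun _ => ht⟩
    choose t ht using h1
    refine ⟨g i (η i) ^ (N i / q i) * ∏ k ∈ Finset.univ.erase i, g k (η k) ^ t k, ?_⟩
    rw [hx, ← Finset.mul_prod_erase Finset.univ _ (Finset.mem_univ i), mul_pow, ← mul_assoc]
    congr 1
    · rw [← pow_mul, ← pow_succ']
      congr 1
      have := Nat.div_add_mod (N i) (q i)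
      rw [hN1 i] at this
      rw [mul_comm]; exact this.symm
    · rw [← Finset.prod_pow]
      refine Finset.prod_congr rfl fun k hk => ?_
      rw [← pow_mul, ht k (Finset.mem_erase.1 hk).1, mul_comm]
  obtain ⟨z', hz'⟩ := hz'
  constructor
  · rintro ⟨z, hz⟩
    have hz2 : x = g i j * (∑ k, z k • e k) ^ q i := by
      have h3 : z = fun k => e.repr (∑ k, z k • e k) k := by
        funext k
        rw [e.repr_sum_self]
      rw [h3, coord_pow] at hz
      apply e.repr.injective
      ext k
      exact congrFun hz k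
    set y : M := ∑ k, z k • e k
    by_contra hne
    have hz'0 : z' ≠ 0 := by
      rintro rfl
      rw [zero_pow (hq i).ne_zero, mul_zero] at hz'
      exact hx0 hz'
    have hy0 : y ≠ 0 := by
      intro h
      rw [h, zero_pow (hq i).ne_zero, mul_zero] at hz2
      exact hx0 hz2
    have hne' : (j : ℕ) ≠ (η i : ℕ) := fun h => hne (Fin.ext h)
    rcases lt_or_gt_of_ne hne' with hlt | hlt
    · refine hg i j (η i) hlt (y / z') ?_
      rw [div_pow, ← mul_div_assoc, ← hz2, hz', mul_div_assoc,
        div_self (pow_ne_zero _ hz'0), mul_one]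
    · refine hg i (η i) j hlt (z' / y) ?_
      rw [div_pow, ← mul_div_assoc, ← hz', hz2, mul_div_assoc,
        div_self (pow_ne_zero _ hy0), mul_one]
  · rintro rfl
    refine ⟨fun k => e.repr z' k, ?_⟩
    rw [coord_pow, ← hz']

end Pool.Agent.Lib.MP_c907c5_lc.SN
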