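import Mathlib

/-! Elements of `K N` algebraic over `F` lie in `K₀ N` (trace argument). -/

set_option autoImplicit false

namespace Pool.Agent.Lib.MP_c907c5_lc.SN

/-- Cramer: a solution of an invertible linear system with coefficients in a subfield has its
entries in this subfield. -/
private theorem cramer_mem {F K ι : Type*} [Field F] [Field K] [Algebra F K] [Fintype ι]
    [DecidableEq ι] (L : IntermediateField F K) (A : Matrix ι ι K) (hA : A.det ≠ 0)
    (hAL : ∀ i j, A i j ∈ L) (k y : ι → K) (hy : ∀ i, y i ∈ L) (h : A.mulVec k = y) (i : ι) :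
    k i ∈ L := by
  let A0 : Matrix ι ι L := fun i j => ⟨A i j, hAL i j⟩
  let y0 : ι → L := fun i => ⟨y i, hy i⟩
  have hmap : (algebraMap L K).mapMatrix A0 = A := by
    ext i j
    rfl
  have hdet : A0.det ≠ 0 := by
    intro h0
    apply hA
    rw [← hmap, ← RingHom.map_det, h0, map_zero]
  have hu : IsUnit A0 := (Matrix.isUnit_iff_isUnit_det A0).2 (isUnit_iff_ne_zero.2 hdet)
  obtain ⟨x0, hx0⟩ : ∃ x0 : ι → L, A0.mulVec x0 = y0 := by
    refine ⟨A0⁻¹.mulVec y0, ?_⟩
    rw [Matrix.mulVec_mulVec, Matrix.mul_nonsing_inv _ (isUnit_iff_ne_zero.2 hdet),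
      Matrix.one_mulVec]
  have hx : A.mulVec (fun i => ((x0 i : L) : K)) = y := by
    funext j
    have h1 := congrArg (fun v : L => (v : K)) (congrFun hx0 j)
    simp only [Matrix.mulVec, dotProduct] at h1 ⊢
    have h2 : ((∑ i, A0 j i * x0 i : L) : K) = ∑ i, A j i * ((x0 i : L) : K) := by
      rw [show ((∑ i, A0 j i * x0 i : L) : K) = algebraMap L K (∑ i, A0 j i * x0 i) from rfl,
        map_sum]
      rfl
    rw [← h2]
    exact h1
  have hinj := Matrix.mulVec_injective_iff_isUnit.2
    ((Matrix.isUnit_iff_isUnit_det A).2 (isUnit_iff_ne_zero.2 hA))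
  have hk : k = fun i => ((x0 i : L) : K) := hinj (h.trans hx.symm)
  rw [hk]
  exact (x0 i).2

theorem trace_span (F K Ω : Type) [Field F] [Field K] [Field Ω] [CharZero F] [Algebra F K]
    [Algebra K Ω] [Algebra F Ω] [IsScalarTower F K Ω] (N : IntermediateField F Ω)
    [FiniteDimensional F N] (γ : Ω) (hγ : γ ∈ IntermediateField.adjoin K (N : Set Ω))
    (hγa : IsAlgebraic F γ) :
    γ ∈ AddSubmonoid.closure
      {x : Ω | ∃ a : K, ∃ b ∈ N, IsAlgebraic F a ∧ x = algebraMap K Ω a * b} := by
  classical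
  have hK0 : CharZero K := charZero_of_injective_algebraMap (algebraMap F K).injective
  obtain ⟨M, hM⟩ : ∃ M : IntermediateField K Ω, M = IntermediateField.adjoin K (N : Set Ω) :=
    ⟨_, rfl⟩
  have hNM : ∀ x ∈ N, x ∈ M := by
    intro x hx
    rw [hM]
    exact IntermediateField.subset_adjoin K _ hx
  have hNalg : ∀ x ∈ N, IsAlgebraic F x := by
    intro x hx
    have h1 : IsAlgebraic F (⟨x, hx⟩ : N) := Algebra.IsAlgebraic.isAlgebraic _
    exact h1.algebraMap
  let c := Module.finBasis F N
  obtain ⟨s, hs⟩ : ∃ s : Set Ω, s = Set.range (fun i => ((c i : N) : Ω)) := ⟨_, rfl⟩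
  have hsfin : s.Finite := by
    rw [hs]
    exact Set.finite_range _
  have hsN : ∀ x ∈ s, x ∈ N := by
    intro x hx
    rw [hs] at hx
    obtain ⟨i, rfl⟩ := hx
    exact (c i).2
  have hNspan : ∀ x ∈ N, x ∈ Submodule.span K s := by
    intro x hx
    have h1 : ((∑ i, c.repr ⟨x, hx⟩ i • c i : N) : Ω) = x := by
      rw [c.sum_repr]
    rw [← h1]
    have h2 : ((∑ i, c.repr ⟨x, hx⟩ i • c i : N) : Ω) =
        ∑ i, algebraMap F K (c.repr ⟨x, hx⟩ i) • ((c i : N) : Ω) := by
      rw [show ((∑ i, c.repr ⟨x, hx⟩ i • c i : N) : Ω) =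
        algebraMap N Ω (∑ i, c.repr ⟨x, hx⟩ i • c i) from rfl, map_sum]
      apply Finset.sum_congr rfl
      intro i _
      rw [algebraMap_smul]
      rfl
    rw [h2]
    apply Submodule.sum_mem
    intro i _
    apply Submodule.smul_mem
    apply Submodule.subset_span
    rw [hs]
    exact ⟨i, rfl⟩
  have hMspan : ∀ x ∈ M, x ∈ Submodule.span K s := by
    intro x hx
    have h1 : (IntermediateField.adjoin K (N : Set Ω)).toSubalgebra =
        Algebra.adjoin K (N : Set Ω) :=
      IntermediateField.adjoin_toSubalgebra_of_isAlgebraic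
        (fun y hy => (hNalg y hy).tower_top K)
    have h2 : x ∈ Algebra.adjoin K (N : Set Ω) := by
      rw [← h1]
      rw [hM] at hx
      exact hx
    have h3 : x ∈ Subalgebra.toSubmodule (Algebra.adjoin K (N : Set Ω)) := h2
    rw [Algebra.adjoin_eq_span] at h3
    refine (Submodule.span_le.2 ?_) h3
    intro y hy
    have h4 : Submonoid.closure (N : Set Ω) ≤ N.toSubalgebra.toSubmonoid :=
      Submonoid.closure_le.2 (fun z hz => hz)
    exact hNspan y (h4 hy)
  obtain ⟨B, hBs, hBspan, hBli⟩ := exists_linearIndependent K s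
  have hBfin : Finite B := (hsfin.subset hBs).to_subtype
  have : Fintype B := Fintype.ofFinite B
  let v : B → M := fun i => ⟨i.1, hNM _ (hsN _ (hBs i.2))⟩
  have hvli : LinearIndependent K v := by
    apply LinearIndependent.of_comp M.val.toLinearMap
    exact hBli
  have hvspan : ⊤ ≤ Submodule.span K (Set.range v) := by
    intro x _
    have h1 : (x : Ω) ∈ Submodule.span K B := by
      rw [hBspan]
      exact hMspan _ x.2
    have h2 : Submodule.map M.val.toLinearMap (Submodule.span K (Set.range v)) =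
        Submodule.span K B := by
      rw [Submodule.map_span, ← Set.range_comp]
      congr 1
      ext z
      constructor
      · rintro ⟨i, rfl⟩
        exact i.2
      · intro hz
        exact ⟨⟨z, hz⟩, rfl⟩
    rw [← h2] at h1
    obtain ⟨y, hy, hyx⟩ := h1
    have h3 : y = x := Subtype.ext hyx
    rw [← h3]
    exact hy
  let b : Module.Basis B K M := Module.Basis.mk hvli hvspan
  have hb : ∀ i, b i = v i := fun i => Module.Basis.mk_apply hvli hvspan i
  have hfd : FiniteDimensional K M := Module.Finite.of_basis b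
  have hγM : γ ∈ M := by
    rw [hM]
    exact hγ
  have htow : IsScalarTower F M Ω := IsScalarTower.of_algebraMap_eq (fun x => by
    rw [IsScalarTower.algebraMap_apply F K Ω, IsScalarTower.algebraMap_apply F K M]
    rfl)
  have hint : ∀ x : M, IsAlgebraic F (x : Ω) → IsAlgebraic F (Algebra.trace K M x) := by
    intro x hx
    have h1 : IsIntegral F x := by
      have h2 : IsAlgebraic F (algebraMap M Ω x) := hx
      exact ((isAlgebraic_algebraMap_iff (algebraMap M Ω).injective).1 h2).isIntegral
    exact (Algebra.isIntegral_trace h1).isAlgebraic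
  have hvalg : ∀ i, IsAlgebraic F ((v i : M) : Ω) := fun i => hNalg _ (hsN _ (hBs i.2))
  have hdet : (Algebra.traceMatrix K b).det ≠ 0 := by
    rw [← Algebra.discr_def]
    exact Algebra.discr_not_zero_of_basis K b
  have hk : ∀ i, b.equivFun ⟨γ, hγM⟩ i ∈ algebraicClosure F K := by
    intro i
    refine cramer_mem (algebraicClosure F K) (Algebra.traceMatrix K b) hdet ?_ _ _ ?_
      (Algebra.traceMatrix_of_basis_mulVec b ⟨γ, hγM⟩) i
    · intro i j
      rw [mem_algebraicClosure_iff, Algebra.traceMatrix_apply, Algebra.traceForm_apply, hb, hb]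
      apply hint
      exact (hvalg i).mul (hvalg j)
    · intro j
      rw [mem_algebraicClosure_iff, hb]
      apply hint
      exact hγa.mul (hvalg j)
  have hsum : γ = ∑ i, algebraMap K Ω (b.equivFun ⟨γ, hγM⟩ i) * ((v i : M) : Ω) := by
    have h1 := b.sum_equivFun ⟨γ, hγM⟩
    have h2 := congrArg (algebraMap M Ω) h1
    rw [map_sum] at h2
    refine (show γ = algebraMap M Ω ⟨γ, hγM⟩ from rfl).trans (h2.symm.trans ?_)
    apply Finset.sum_congr rfl
    intro i _
    rw [hb, Algebra.smul_def, map_mul]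
    rfl
  rw [hsum]
  apply AddSubmonoid.sum_mem
  intro i _
  apply AddSubmonoid.subset_closure
  exact ⟨_, _, hsN _ (hBs i.2), mem_algebraicClosure_iff.1 (hk i), rfl⟩

end Pool.Agent.Lib.MP_c907c5_lc.SN
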