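import Pool.Agent.Lib.MP_c907c5_lc.SN.GCore
import Pool.Agent.Lib.MP_c907c5_lc.SN.Tr
import Pool.Agent.Lib.MP_c907c5_lc.SN.KS

/-! Algebraic elements of a strongly NIP ordered field. -/

set_option autoImplicit false
open FirstOrder FirstOrder.Language FirstOrder.Ring IsDedekindDomain

namespace Pool.Agent.Lib.MP_c907c5_lc.SN

/-- `K N` is finite over `K` if `N` is finite over `F`. -/
theorem finite_adjoin (F K Ω : Type) [Field F] [Field K] [Field Ω] [Algebra F K]
    [Algebra K Ω] [Algebra F Ω] [IsScalarTower F K Ω] (N : IntermediateField F Ω)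
    [FiniteDimensional F N] :
    FiniteDimensional K (IntermediateField.adjoin K (N : Set Ω)) := by
  classical
  let b := Module.finBasis F N
  let S : Set Ω := Set.range fun i => ((b i : N) : Ω)
  have hS : IntermediateField.adjoin K (N : Set Ω) = IntermediateField.adjoin K S := by
    apply le_antisymm
    · rw [IntermediateField.adjoin_le_iff]
      intro x hx
      have h1 : (x : Ω) = ∑ i, algebraMap K Ω (algebraMap F K (b.repr ⟨x, hx⟩ i)) *
          ((b i : N) : Ω) := by
        have h2 := congrArg (Subtype.val : N → Ω) (b.sum_repr ⟨x, hx⟩)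
        simp only [AddSubmonoidClass.coe_finsetSum] at h2
        refine h2.symm.trans (Finset.sum_congr rfl fun i _ => ?_)
        rw [← IsScalarTower.algebraMap_apply]
        simp [Algebra.smul_def]
      rw [h1]
      refine sum_mem fun i _ => mul_mem (algebraMap_mem _ _) ?_
      exact IntermediateField.subset_adjoin K S ⟨i, rfl⟩
    · rw [IntermediateField.adjoin_le_iff]
      rintro _ ⟨i, rfl⟩
      exact IntermediateField.subset_adjoin K _ (b i).2
  rw [hS]
  refine IntermediateField.finiteDimensional_adjoin (S := S) ?_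
  rintro _ ⟨i, rfl⟩
  have h1 : IsIntegral F ((b i : N) : Ω) :=
    (Algebra.IsIntegral.isIntegral (R := F) (b i)).map N.val
  exact h1.tower_top

theorem gmain (K : Type) [Field K] [CharZero K] [CompatibleRing K] [Language.order.Structure K]
    (hK : StronglyNIP K) (F₀ : Type) [Field F₀] [CharZero F₀] [Algebra F₀ K] (hF₀ : Primes F₀)
    (F : Type) [Field F] [Algebra F₀ F] [FiniteDimensional F₀ F] [Algebra F (AlgebraicClosure K)]
    [IsScalarTower F₀ F (AlgebraicClosure K)]
    (L : IntermediateField F (AlgebraicClosure K)) [Normal F L]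
    (hL : ∀ x : K, IsAlgebraic F₀ x → algebraMap K (AlgebraicClosure K) x ∈ L)
    (y : AlgebraicClosure K) (hy : IsAlgebraic F₀ y) : y ∈ L := by
  classical
  by_contra hyL
  let Ω := AlgebraicClosure K
  have : CharZero F := charZero_of_injective_algebraMap (algebraMap F₀ F).injective
  let A := algebraicClosure F Ω
  have hac : IsAlgClosure F A := algebraicClosure.isAlgClosure F Ω
  have : IsAlgClosed A := hac.isAlgClosed
  have : Algebra.IsAlgebraic F A := hac.isAlgebraic
  have : IsGalois F A := IsAlgClosure.isGalois F A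
  have hyF : IsAlgebraic F y := hy.tower_top F
  -- `L` inside `A`
  have hLA : ∀ x ∈ L, x ∈ A := fun x hx =>
    mem_algebraicClosure_iff.2 ((isAlgebraic_algebraMap_iff
      (algebraMap L Ω).injective (a := (⟨x, hx⟩ : L))).2
        (Algebra.IsAlgebraic.isAlgebraic (R := F) (⟨x, hx⟩ : L)))
  let L' : IntermediateField F A := L.comap A.val
  have hmap : L'.map A.val = L := by
    ext x
    constructor
    · rintro ⟨z, hz, rfl⟩
      exact hz
    · intro hx
      exact ⟨⟨x, hLA x hx⟩, hx, rfl⟩
  have hN1 : Normal F L' := Normal.of_algEquiv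
    ((L'.equivMap A.val).trans (IntermediateField.equivOfEq hmap)).symm
  let y' : A := ⟨y, mem_algebraicClosure_iff.2 hyF⟩
  have hy'L : y' ∉ L' := hyL
  have hfd : FiniteDimensional F (IntermediateField.adjoin F ({y'} : Set A)) :=
    IntermediateField.adjoin.finiteDimensional
      (Algebra.IsIntegral.isIntegral (R := F) y')
  let N' : IntermediateField F A :=
    IntermediateField.normalClosure F (IntermediateField.adjoin F ({y'} : Set A)) A
  have hN2 : Normal F N' := inferInstance
  have hN3 : FiniteDimensional F N' := inferInstance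
  have hN4 : FiniteDimensional F₀ N' := FiniteDimensional.trans F₀ F N'
  have hyN : y' ∈ N' := IntermediateField.le_normalClosure _
    (IntermediateField.subset_adjoin F _ rfl)
  obtain ⟨σ, hσL, hσy⟩ : ∃ σ : A ≃ₐ[F] A, (∀ x ∈ L', σ x = x) ∧ σ y' ≠ y' := by
    by_contra h
    push Not at h
    apply hy'L
    rw [← InfiniteGalois.fixedField_fixingSubgroup L', IntermediateField.mem_fixedField_iff]
    intro f hf
    exact h f ((IntermediateField.mem_fixingSubgroup_iff _ _).1 hf)
  let α : N' := ⟨y', hyN⟩
  have hσα : σ (α : A) ≠ (α : A) := hσy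
  -- primes
  let B := Module.finrank F₀ N'
  let q : ℕ → ℕ := fun i => Nat.nth Nat.Prime (i + B)
  have hq : ∀ i, (q i).Prime := fun i => Nat.prime_nth_prime _
  have hinj : Function.Injective q := fun i j h => by
    have := (Nat.nth_strictMono Nat.infinite_setOfPred_prime).injective h
    omega
  have hqB : ∀ i, B < q i := fun i => by
    have := Nat.add_two_le_nth_prime (i + B)
    simp only [q]
    omega
  -- the field `M = K N`
  let N : IntermediateField F Ω := N'.map A.val
  have hN5 : FiniteDimensional F N :=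
    LinearEquiv.finiteDimensional (N'.equivMap A.val).toLinearEquiv
  let N0 : IntermediateField F₀ Ω := N.restrictScalars F₀
  have hN6 : FiniteDimensional F₀ N := FiniteDimensional.trans F₀ F N
  have hN7 : FiniteDimensional F₀ N0 := hN6
  let M := IntermediateField.adjoin K (N0 : Set Ω)
  have hM : FiniteDimensional K M := finite_adjoin F₀ K Ω N0
  have hNM : ∀ x : N', ((x : A) : Ω) ∈ M := fun x =>
    IntermediateField.subset_adjoin K _ ⟨(x : A), x.2, rfl⟩
  let elt : F₀ → M := fun n => algebraMap K M (algebraMap F₀ K n) - ⟨((α : A) : Ω), hNM _⟩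
  have helt : ∀ n, ((elt n : M) : Ω) = ((algebraMap F₀ A n - (α : A) : A) : Ω) := by
    intro n
    have h1 : ((algebraMap K M (algebraMap F₀ K n) : M) : Ω) =
        ((algebraMap F₀ A n : A) : Ω) := by
      have h2 : ((algebraMap K M (algebraMap F₀ K n) : M) : Ω) =
        algebraMap K Ω (algebraMap F₀ K n) := rfl
      rw [h2, ← IsScalarTower.algebraMap_apply]
      rfl
    have h3 : ((elt n : M) : Ω) = ((algebraMap K M (algebraMap F₀ K n) : M) : Ω) -
      ((α : A) : Ω) := rfl
    rw [h3, h1]
    rfl
  have helt0 : ∀ n, elt n ≠ 0 := by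
    intro n h
    have h1 : algebraMap F₀ A n - (α : A) = 0 := by
      apply Subtype.ext
      rw [← helt, h]
      rfl
    apply hσα
    rw [← sub_eq_zero.1 h1, IsScalarTower.algebraMap_apply F₀ F A, AlgEquiv.commutes]
  -- compositum
  have hcomp : ∀ γ : Ω, γ ∈ M → IsAlgebraic F γ → ∃ γ' ∈ L' ⊔ N', (γ' : Ω) = γ := by
    intro γ hγ hγa
    have h1 := trace_span F₀ K Ω N0 γ hγ (hγa.restrictScalars F₀)
    have h2 : γ ∈ (L' ⊔ N').map A.val := by
      clear hγ hγa
      induction h1 using AddSubmonoid.closure_induction with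
      | zero => exact zero_mem _
      | add x y _ _ hx hy => exact add_mem hx hy
      | mem x hx =>
        obtain ⟨a, b, hb, ha, rfl⟩ := hx
        refine mul_mem ?_ ?_
        · have h3 : algebraMap K Ω a ∈ L := hL a ha
          rw [← hmap] at h3
          exact IntermediateField.map_mono A.val le_sup_left h3
        · exact IntermediateField.map_mono A.val le_sup_right hb
    obtain ⟨z, hz, rfl⟩ := h2
    exact ⟨z, hz, rfl⟩
  have hseq : ∀ i, ∃ f : ℕ → F₀, (∀ _ : ℕ, True) ∧ ∀ m n, m < n →
      ∀ z : M, elt (f n) ≠ elt (f m) * z ^ q i := by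
    intro i
    refine exists_seq_of_forall_finset_exists (fun _ : F₀ => True)
      (fun m n => ∀ z : M, elt n ≠ elt m * z ^ q i) fun s _ => ?_
    obtain ⟨n, hn⟩ := gcore F₀ F A hF₀ L' N' σ hσL α hσα (q i) (hq i) (hqB i) s
    refine ⟨n, trivial, fun m hm z hz => ?_⟩
    have hz1 : ((algebraMap F₀ A n - (α : A) : A) : Ω) =
        ((algebraMap F₀ A m - (α : A) : A) : Ω) * (z : Ω) ^ q i := by
      rw [← helt, ← helt, hz]
      simp
    have hm0 : ((algebraMap F₀ A m - (α : A) : A) : Ω) ≠ 0 := by
      rw [← helt]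
      intro h
      exact helt0 m (Subtype.ext h)
    have hza : IsAlgebraic F (z : Ω) := by
      have h4 : (z : Ω) ^ q i = (((algebraMap F₀ A n - (α : A)) /
          (algebraMap F₀ A m - (α : A)) : A) : Ω) := by
        have h5 : (((algebraMap F₀ A n - (α : A)) / (algebraMap F₀ A m - (α : A)) : A) : Ω) =
            ((algebraMap F₀ A n - (α : A) : A) : Ω) / ((algebraMap F₀ A m - (α : A) : A) : Ω) :=
          rfl
        rw [h5, hz1, mul_comm, mul_div_assoc, div_self hm0, mul_one]
      have h6 : IsAlgebraic F ((z : Ω) ^ q i) := by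
        rw [h4]
        exact mem_algebraicClosure_iff.1
          ((algebraMap F₀ A n - (α : A)) / (algebraMap F₀ A m - (α : A)) : A).2
      exact h6.of_pow (hq i).pos
    obtain ⟨γ', hγ', hγz⟩ := hcomp z z.2 hza
    refine hn m hm γ' hγ' ?_
    apply Subtype.ext
    rw [hz1, ← hγz]
    rfl
  choose f _ hf using hseq
  exact ks K hK M q hq hinj (fun i j => elt (f i j)) (fun i j => helt0 _)
    (fun i j k hjk z => hf i j k hjk z)

end Pool.Agent.Lib.MP_c907c5_lc.SN
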