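import Mathlib

/-! Commuting Galois groups. -/

set_option autoImplicit false

namespace Pool.Agent.Lib.MP_c907c5_lc.SN

private theorem map_mem_of_normal {F A : Type} [Field F] [Field A] [Algebra F A] [Normal F A]
    (K : IntermediateField F A) [h : Normal F K] (τ : A ≃ₐ[F] A) {x : A} (hx : x ∈ K) : τ x ∈ K := by
  have h1 := IntermediateField.normal_iff_forall_map_le.1 h (τ : A →ₐ[F] A)
  exact h1 ⟨x, hx, rfl⟩

/-- The field where two homomorphisms agree. -/
private def eqField {F A : Type} [Field F] [Field A] [Algebra F A] (f g : A →ₐ[F] A) : IntermediateField F A where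
  toSubalgebra := AlgHom.equalizer f g
  inv_mem' := by
    intro x hx
    have h1 : f x = g x := hx
    change f x⁻¹ = g x⁻¹
    rw [map_inv₀, map_inv₀, h1]

theorem gal (F A : Type) [Field F] [Field A] [CharZero F] [Algebra F A] [Algebra.IsAlgebraic F A]
    [IsAlgClosed A] (L N : IntermediateField F A) [Normal F L] [Normal F N]
    (σ : A ≃ₐ[F] A) (hσ : ∀ x ∈ L, σ x = x) (q : ℕ) (hq : q.Prime) (γ : A) (h0 : γ ≠ 0)
    (hγ : γ ∈ L ⊔ N) (hγN : γ ^ q ∈ N) :
    ∃ c : ℕ, ¬ q ∣ c ∧ ∃ δ ∈ N, δ ≠ 0 ∧ σ (γ ^ q) = (γ ^ q) ^ c * δ ^ q := by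
  have hclo : IsAlgClosure F A := ⟨inferInstance, inferInstance⟩
  have hnor : Normal F A := IsAlgClosure.normal F A
  have hgal : IsGalois F A := ⟨⟩
  have hq0 : NeZero q := ⟨hq.ne_zero⟩
  have hcz : CharZero A := charZero_of_injective_algebraMap (algebraMap F A).injective
  have hq1 : NeZero (q : A) := ⟨Nat.cast_ne_zero.2 hq.ne_zero⟩
  obtain ⟨ζ, hζ⟩ := HasEnoughRootsOfUnity.exists_primitiveRoot A q
  have h1 : (σ ζ) ^ q = 1 := by rw [← map_pow, hζ.pow_eq_one, map_one]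
  obtain ⟨c, _, hc⟩ := hζ.eq_pow_of_pow_eq_one h1
  -- the action on roots of unity
  have hroot : ∀ x : A, x ^ q = 1 → σ x = x ^ c := by
    intro x hx
    obtain ⟨i, _, hi⟩ := hζ.eq_pow_of_pow_eq_one hx
    rw [← hi, map_pow, ← hc, ← pow_mul, ← pow_mul, mul_comm]
  have hqc : ¬ q ∣ c := by
    rintro ⟨d, hd⟩
    have h2 : σ ζ = 1 := by rw [← hc, hd, pow_mul, hζ.pow_eq_one, one_pow]
    have h3 : ζ = 1 := σ.injective (by rw [h2, map_one])
    exact hζ.ne_one hq.one_lt h3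
  have hδ0 : σ γ ≠ 0 := by
    rw [ne_eq, map_eq_zero]
    exact h0
  have hmem : σ γ / γ ^ c ∈ N := by
    rw [← InfiniteGalois.fixedField_fixingSubgroup N, IntermediateField.mem_fixedField_iff]
    intro τ hτ
    rw [IntermediateField.mem_fixingSubgroup_iff] at hτ
    -- the two automorphisms commute on `L ⊔ N`
    have hcomm : ∀ x ∈ L ⊔ N, σ (τ x) = τ (σ x) := by
      have hle : L ⊔ N ≤ eqField ((σ : A →ₐ[F] A).comp (τ : A →ₐ[F] A)) ((τ : A →ₐ[F] A).comp (σ : A →ₐ[F] A)) := by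
        refine sup_le ?_ ?_
        · intro x hx
          change σ (τ x) = τ (σ x)
          rw [hσ x hx, hσ _ (map_mem_of_normal L τ hx)]
        · intro x hx
          change σ (τ x) = τ (σ x)
          rw [hτ x hx, hτ _ (map_mem_of_normal N σ hx)]
      intro x hx
      exact hle hx
    have h2 : (τ γ / γ) ^ q = 1 := by
      rw [div_pow, ← map_pow, hτ _ hγN]
      exact div_self (pow_ne_zero _ h0)
    have h3 := hroot _ h2
    have h4 : τ γ = (τ γ / γ) * γ := (div_mul_cancel₀ _ h0).symm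
    have hτ0 : τ γ ≠ 0 := by
      rw [ne_eq, map_eq_zero]
      exact h0
    have h5 : σ (τ γ) = (τ γ / γ) ^ c * σ γ := by
      have h6 : σ (τ γ) = σ (τ γ / γ) * σ γ := by rw [← map_mul, ← h4]
      rw [h6, h3]
    rw [map_div₀, map_pow, ← hcomm γ hγ, h5, div_pow]
    field_simp
  refine ⟨c, hqc, _, hmem, div_ne_zero hδ0 (pow_ne_zero _ h0), ?_⟩
  rw [map_pow, div_pow, ← pow_mul, ← pow_mul, mul_comm q c]
  field_simp

end Pool.Agent.Lib.MP_c907c5_lc.SN
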