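import Mathlib

set_option autoImplicit false

namespace Pool.Agent.Lib.MP_c907c5_lc.SN

/-- product in coordinates, with structure constants `c` -/
def mulc {R : Type*} [CommRing R] {d : ℕ} (c : Fin d → Fin d → Fin d → R)
    (u v : Fin d → R) : Fin d → R :=
  fun k => ∑ i, ∑ j, c i j k * u i * v j

/-- `y * z ^ n` in coordinates -/
def powc {R : Type*} [CommRing R] {d : ℕ} (c : Fin d → Fin d → Fin d → R)
    (y z : Fin d → R) : ℕ → Fin d → R
  | 0 => y
  | n + 1 => mulc c (powc c y z n) z

end Pool.Agent.Lib.MP_c907c5_lc.SN
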