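import Pool.Agent.Lib.MP_c907c5_lc.SN.Defs
import Pool.Agent.Lib.MP_c907c5_lc.SN.FormA

/-! A pattern of translates of cosets of the groups of `q`-th powers. -/

set_option autoImplicit false
open FirstOrder FirstOrder.Language FirstOrder.Ring

namespace Pool.Agent.Lib.MP_c907c5_lc.SN

private lemma coord_mul3 {K M : Type} [Field K] [Field M] [Algebra K M] {d : ℕ}
    (e : Module.Basis (Fin d) K M) (u v : M) :
    mulc (fun i j k => e.repr (e i * e j) k) (fun i => e.repr u i) (fun i => e.repr v i)
      = fun i => e.repr (u * v) i := by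
  funext k
  have hu : u = ∑ i, e.repr u i • e i := (e.sum_repr u).symm
  have hv : v = ∑ i, e.repr v i • e i := (e.sum_repr v).symm
  conv_rhs => rw [hu, hv, Finset.sum_mul_sum]
  simp only [mulc, map_sum, Finsupp.coe_finsetSum, Finset.sum_apply, smul_mul_smul_comm,
    map_smul, Finsupp.smul_apply, smul_eq_mul]
  refine Finset.sum_congr rfl fun i _ => Finset.sum_congr rfl fun j _ => ?_
  ring

private lemma coord_pow3 {K M : Type} [Field K] [Field M] [Algebra K M] {d : ℕ}
    (e : Module.Basis (Fin d) K M) (u v : M) (n : ℕ) :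
    powc (fun i j k => e.repr (e i * e j) k) (fun i => e.repr u i) (fun i => e.repr v i) n
      = fun i => e.repr (u * v ^ n) i := by
  induction n with
  | zero => simp [powc]
  | succ n ih => rw [powc, ih, coord_mul3, pow_succ, mul_assoc]

theorem pattern_add (K : Type) [Field K] [CompatibleRing K] [Language.order.Structure K]
    (hK : StronglyNIP K) (M : Type) [Field M] [Algebra K M] [FiniteDimensional K M]
    (q : ℕ → ℕ)
    (H : ∀ n W : ℕ, ∃ (a : Fin n → Fin W → M) (c : Fin n → M), ∀ η : Fin n → Fin W,
      ∃ x : M, ∀ (i : Fin n) (j : Fin W), (∃ z : M, x = a i j + c i * z ^ q i) ↔ j = η i) :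
    False := by
  classical
  set d := Module.finrank K M with hd
  let e : Module.Basis (Fin d) K M := Module.finBasis K M
  choose m code φ hφ using fun i => add_pow_formula K d (q i)
  apply hK
  refine ⟨d, m, φ, fun n w => ?_⟩
  obtain ⟨a, c, hac⟩ := H n w
  refine ⟨fun i j => code i (fun k => e.repr (a i j) k) (fun k => e.repr (c i) k)
    (fun i j k => e.repr (e i * e j) k), fun η => ?_⟩
  obtain ⟨x, hx⟩ := hac η
  refine ⟨fun k => e.repr x k, fun i j => ?_⟩
  rw [hφ, ← hx i j]
  constructor
  · rintro ⟨z, hz⟩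
    refine ⟨∑ k, z k • e k, ?_⟩
    have h3 : z = fun k => e.repr (∑ k, z k • e k) k := by
      funext k
      rw [e.repr_sum_self]
    rw [h3, coord_pow3] at hz
    apply e.repr.injective
    ext k
    have h4 := congrFun hz k
    rw [map_add, Finsupp.add_apply]
    exact h4
  · rintro ⟨z, hz⟩
    refine ⟨fun k => e.repr z k, ?_⟩
    rw [coord_pow3]
    funext k
    rw [hz, map_add, Finsupp.add_apply]

end Pool.Agent.Lib.MP_c907c5_lc.SN
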